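import Pool.Agent.N430.PS.LSE
import Pool.Agent.Y812.XF.KdCore

set_option autoImplicit false

/-! Few moduli for which the Jacobi symbols of a set of primes are biased. -/

namespace Pool.Agent.N430.LK

open Finset
open Pool.Agent.H730R2.AA.Tau
open Pool.Agent.N430.PS
open Pool.Agent.Y812.XF (jc jc_nat jc_prim)

lemma tau_at_one (r : ℕ) : tau r 1 = 1 := by
  induction r with
  | zero => rw [tau_zero_apply, if_pos rfl]
  | succ r ih => rw [tau_succ_apply, Nat.divisors_one, sum_singleton, ih]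

lemma tau_prime (r p : ℕ) (hp : p.Prime) : tau r p = r := by
  induction r with
  | zero => rw [tau_zero_apply, if_neg hp.one_lt.ne', Nat.cast_zero]
  | succ r ih =>
    rw [tau_succ_apply, hp.divisors, sum_pair hp.one_lt.ne, tau_at_one, ih]
    push_cast
    ring

theorem few_biased (r x y : ℕ) (hr : 1 ≤ r) (T : Finset ℕ) (hT : ∀ p ∈ T, p.Prime ∧ p ≤ x) (δ : ℝ)
    (hδ : 0 ≤ δ) (B : Finset ℕ) (hB : ∀ m ∈ B, m ≤ y ∧ Odd m ∧ Squarefree m ∧
      δ ≤ |∑ p ∈ T, (jacobiSym (p : ℤ) m : ℝ)|) :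
    (B.card : ℝ) * δ ^ (2 * r) ≤ 6 * ((x : ℝ) ^ r + (y : ℝ) ^ 2) * (r * T.card) ^ r := by
  classical
  have hTI : T ⊆ Icc 1 x := by
    intro p hp
    rw [mem_Icc]
    exact ⟨(hT p hp).1.one_le, (hT p hp).2⟩
  obtain ⟨A, hA, hA2⟩ := momentE r x hr T hTI
  have hwt : wt r T = r * T.card := by
    unfold wt
    rw [Finset.sum_congr rfl fun p hp => tau_prime r p (hT p hp).1, sum_const, nsmul_eq_mul, mul_comm]
  have h := Helper112.mult_large_sieve (x ^ r) y (fun n => (A n : ℂ))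
  have h2 : ∑ n ∈ Icc 1 (x ^ r), ‖((A n : ℝ) : ℂ)‖ ^ 2 = ∑ n ∈ Icc 1 (x ^ r), A n ^ 2 := by
    apply sum_congr rfl
    intro n _
    rw [Complex.norm_real, Real.norm_eq_abs, sq_abs]
  rw [h2] at h
  have h3 : 6 * (((x ^ r : ℕ) : ℝ) + (y : ℝ) ^ 2) * ∑ n ∈ Icc 1 (x ^ r), A n ^ 2 ≤
      6 * ((x : ℝ) ^ r + (y : ℝ) ^ 2) * (r * T.card) ^ r := by
    push_cast
    rw [← hwt]
    exact mul_le_mul_of_nonneg_left hA2 (by positivity)
  refine le_trans (le_trans ?_ h) h3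
  have hBI : B ⊆ Icc 1 y := by
    intro m hm
    obtain ⟨h1, h2, -, -⟩ := hB m hm
    rw [mem_Icc]
    exact ⟨h2.pos, h1⟩
  refine le_trans ?_ (sum_le_sum_of_subset_of_nonneg hBI ?_)
  · rw [← nsmul_eq_mul, ← sum_const]
    apply sum_le_sum
    intro m hm
    obtain ⟨-, hodd, hsf, hb⟩ := hB m hm
    have hm0 : m ≠ 0 := hsf.ne_zero
    have : NeZero m := ⟨hm0⟩
    have h4 : (1 : ℝ) ≤ (m : ℝ) / (Nat.totient m : ℝ) := by
      rw [one_le_div (by exact_mod_cast Nat.totient_pos.2 (Nat.pos_of_ne_zero hm0))]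
      exact_mod_cast Nat.totient_le m
    have h5 : δ ^ (2 * r) ≤ ‖∑ n ∈ Icc 1 (x ^ r), (A n : ℂ) * (jc m) (n : ZMod m)‖ ^ 2 := by
      rw [← hA m (jc m), norm_pow, ← pow_mul, mul_comm r 2]
      apply pow_le_pow_left₀ hδ
      refine hb.trans (le_of_eq ?_)
      have h6 : ∑ p ∈ T, (jc m) (p : ZMod m) =
          ((∑ p ∈ T, (jacobiSym (p : ℤ) m : ℝ) : ℝ) : ℂ) := by
        push_cast
        refine Finset.sum_congr rfl fun p _ => ?_
        rw [jc_nat]
      rw [h6, Complex.norm_real, Real.norm_eq_abs]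
    calc δ ^ (2 * r) ≤ ‖∑ n ∈ Icc 1 (x ^ r), (A n : ℂ) * (jc m) (n : ZMod m)‖ ^ 2 := h5
      _ ≤ ∑ χ ∈ (univ : Finset (DirichletCharacter ℂ m)).filter (fun χ => χ.IsPrimitive),
          ‖∑ n ∈ Icc 1 (x ^ r), (A n : ℂ) * χ (n : ZMod m)‖ ^ 2 := by
          apply single_le_sum (f := fun χ : DirichletCharacter ℂ m =>
            ‖∑ n ∈ Icc 1 (x ^ r), (A n : ℂ) * χ (n : ZMod m)‖ ^ 2) (fun _ _ => by positivity)
          rw [mem_filter]
          exact ⟨mem_univ _, jc_prim hodd hsf⟩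
      _ ≤ _ := by
          apply le_mul_of_one_le_left _ h4
          exact sum_nonneg fun _ _ => by positivity
  · intro p _ _
    apply mul_nonneg (by positivity)
    exact sum_nonneg fun _ _ => by positivity

end Pool.Agent.N430.LK
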