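import Pool.Agent.N430.LK.RankSet
import Pool.Agent.N430.LK.Real
import Pool.Agent.Y855.A15

set_option autoImplicit false

/-! For every `x` there are few moduli for which the sifted primes have biased Jacobi symbols. -/

namespace Pool.Agent.N430.LK

open Finset Filter
open Pool.Agent.Y855

lemma dl_half (δ : ℝ) (hδ : 0 < δ) : ∃ M₀ : ℕ, ∀ m : ℕ, M₀ ≤ m → Squarefree m → Odd m →
    |dl m - 1 / 2| ≤ δ := by
  classical
  obtain ⟨Q, hQ⟩ : ∃ Q : ℕ, 1 / δ + 3 < Q := exists_nat_gt _
  have hδ0 : 0 < 1 / δ := by positivity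
  refine ⟨Q ^ Q + 1, fun m hm hsf hodd => ?_⟩
  have h3 : ∀ q ∈ m.primeFactors, 3 ≤ q := by
    intro q hq
    have hqp := Nat.prime_of_mem_primeFactors hq
    have hqd := Nat.dvd_of_mem_primeFactors hq
    rcases hqp.eq_two_or_odd' with h | h
    · exfalso
      rw [h] at hqd
      exact (Nat.not_even_iff_odd.2 hodd) (even_iff_two_dvd.2 hqd)
    · have := hqp.two_le
      obtain ⟨t, ht⟩ := h
      omega
  have hle1 : ∀ q ∈ m.primeFactors, 0 ≤ 1 / ((q : ℝ) - 2) ∧ 1 / ((q : ℝ) - 2) ≤ 1 := by
    intro q hq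
    have h4 : (3 : ℝ) ≤ q := by exact_mod_cast h3 q hq
    constructor
    · apply div_nonneg zero_le_one; linarith
    · rw [div_le_one (by linarith)]; linarith
  have hprod0 : 0 ≤ ∏ q ∈ m.primeFactors, (1 / ((q : ℝ) - 2)) :=
    prod_nonneg fun q hq => (hle1 q hq).1
  have hprod : ∏ q ∈ m.primeFactors, (1 / ((q : ℝ) - 2)) ≤ δ := by
    obtain ⟨q, hq, hqQ⟩ : ∃ q ∈ m.primeFactors, Q ≤ q := by
      by_contra hcon
      push Not at hcon
      have h4 : ∏ q ∈ m.primeFactors, q ≤ ∏ q ∈ range Q, Q := by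
        calc ∏ q ∈ m.primeFactors, q ≤ ∏ _q ∈ m.primeFactors, Q :=
              prod_le_prod' fun q hq => (hcon q hq).le
          _ = Q ^ m.primeFactors.card := by rw [prod_const]
          _ ≤ Q ^ Q := by
              apply Nat.pow_le_pow_right
              · have : (0 : ℝ) < Q := by linarith
                exact_mod_cast this
              · have h5 : m.primeFactors ⊆ range Q := by
                  intro q hq
                  rw [mem_range]
                  exact hcon q hq
                have := card_le_card h5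
                rwa [card_range] at this
          _ = ∏ q ∈ range Q, Q := by rw [prod_const, card_range]
      rw [Nat.prod_primeFactors_of_squarefree hsf, prod_const, card_range] at h4
      omega
    have hqr : (Q : ℝ) ≤ q := by exact_mod_cast hqQ
    rw [← mul_prod_erase _ _ hq]
    have h5 : ∏ q ∈ m.primeFactors.erase q, (1 / ((q : ℝ) - 2)) ≤ 1 :=
      prod_le_one (fun q hq => (hle1 q (mem_of_mem_erase hq)).1)
        (fun q hq => (hle1 q (mem_of_mem_erase hq)).2)
    have h6 : 1 / ((q : ℝ) - 2) ≤ δ := by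
      rw [div_le_iff₀ (by linarith)]
      have h7 : 1 / δ ≤ (q : ℝ) - 2 := by linarith
      rw [div_le_iff₀ hδ] at h7
      linarith
    calc _ ≤ 1 / ((q : ℝ) - 2) * 1 := mul_le_mul_of_nonneg_left h5 (hle1 q hq).1
      _ ≤ δ := by linarith
  unfold dl
  have hmu : |((ArithmeticFunction.moebius m : ℤ) : ℝ)| ≤ 1 := by
    have := ArithmeticFunction.abs_moebius_le_one (n := m)
    exact_mod_cast this
  have h8 : 1 / 2 * (1 - ((ArithmeticFunction.moebius m : ℤ) : ℝ) *
      ∏ q ∈ m.primeFactors, (1 / ((q : ℝ) - 2))) - 1 / 2 =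
      -(((ArithmeticFunction.moebius m : ℤ) : ℝ) * ∏ q ∈ m.primeFactors, (1 / ((q : ℝ) - 2))) / 2 := by
    ring
  rw [h8, abs_div, abs_neg, abs_mul, abs_of_nonneg hprod0, abs_two]
  have h9 : |((ArithmeticFunction.moebius m : ℤ) : ℝ)| *
      ∏ q ∈ m.primeFactors, (1 / ((q : ℝ) - 2)) ≤ 1 * δ :=
    mul_le_mul hmu hprod hprod0 zero_le_one
  linarith

/-- the sum of the symbols and the number of the nonresidues -/
lemma jac_sum (x z m : ℕ) (hm : m ≠ 0) :
    |((TT x z).card : ℝ) - 2 * (TQ x z m).card| ≤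
      |∑ p ∈ TT x z, (jacobiSym (p : ℤ) m : ℝ)| + m.primeFactors.card := by
  classical
  have h1 : ∀ p ∈ TT x z, (jacobiSym (p : ℤ) m : ℝ) =
      1 - 2 * (if jacobiSym (p : ℤ) m = -1 then (1 : ℝ) else 0) - (if p ∣ m then (1 : ℝ) else 0) := by
    intro p hp
    have hpp := TT_prime hp
    by_cases hd : p ∣ m
    · have h0 : jacobiSym (p : ℤ) m = 0 := by
        have : NeZero m := ⟨hm⟩
        rw [jacobiSym.eq_zero_iff_not_coprime, Int.gcd_natCast_natCast]
        intro h
        exact hpp.one_lt.ne' (Nat.eq_one_of_dvd_coprimes h (dvd_refl p) hd)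
      rw [h0]
      simp [hd]
    · have h2 : Int.gcd (p : ℤ) m = 1 := by
        rw [Int.gcd_natCast_natCast]
        exact (Nat.Prime.coprime_iff_not_dvd hpp).2 hd
      rcases jacobiSym.eq_one_or_neg_one h2 with h | h
      · rw [h]
        simp [hd]
      · rw [h]
        simp [hd]
        norm_num
  rw [Finset.sum_congr rfl h1, sum_sub_distrib, sum_sub_distrib, ← mul_sum, ← sum_filter,
    ← sum_filter, sum_const, sum_const, sum_const, nsmul_eq_mul, nsmul_eq_mul, nsmul_eq_mul, mul_one,
    mul_one, mul_one]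
  have h3 : ((TT x z).filter (fun p : ℕ => jacobiSym (p : ℤ) m = -1)) = TQ x z m := rfl
  rw [h3]
  have h4 : (((TT x z).filter (fun p => p ∣ m)).card : ℝ) ≤ m.primeFactors.card := by
    apply Nat.cast_le.2
    apply card_le_card
    intro p hp
    rw [mem_filter] at hp
    rw [Nat.mem_primeFactors]
    exact ⟨TT_prime hp.1, hp.2, hm⟩
  have h5 : (0 : ℝ) ≤ (((TT x z).filter (fun p => p ∣ m)).card : ℝ) := Nat.cast_nonneg _
  set a := ((TT x z).card : ℝ) - 2 * (TQ x z m).card
  set b := (((TT x z).filter (fun p => p ∣ m)).card : ℝ)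
  calc |a| = |(a - b) + b| := by ring_nf
    _ ≤ |a - b| + |b| := abs_add_le _ _
    _ ≤ _ := by rw [abs_of_nonneg h5]; linarith

open Classical in
/-- the moduli `m ≤ y` for which the number of the nonresidues is wrong -/
noncomputable def BD (ε : ℝ) (k x y : ℕ) : Finset ℕ :=
  (Icc 1 y).filter (fun m : ℕ => Odd m ∧ Squarefree m ∧ ε * (TT x (zf k x)).card <
    |((TQ x (zf k x) m).card : ℝ) - dl m * (TT x (zf k x)).card|)

theorem bias (ε : ℝ) (hε : 0 < ε) : ∃ k : ℕ, 1 ≤ k ∧ ∀ η : ℝ, 0 < η → ∃ K : ℕ, 1 ≤ K ∧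
    ∀ B : ℕ, ∀ᶠ x : ℕ in atTop, (x : ℝ) / (Real.log x) ^ 2 ≤ (TT x (zf k x)).card ∧
      (∀ y : ℕ, (y : ℝ) ≤ (Real.log x) ^ B → BD ε k x y = ∅) ∧
      ∀ y : ℕ, 1 ≤ y → Real.log y ≤ (x : ℝ) ^ (1 / (K : ℝ)) → ((BD ε k x y).card : ℝ) ≤ (y : ℝ) ^ η := by
  classical
  obtain ⟨K₁, hK₁, hcore⟩ := core (ε / 2) (by positivity)
  obtain ⟨k, hkK⟩ : ∃ k : ℕ, K₁ ≤ k := exists_nat_ge _
  have hk1r : (1 : ℝ) ≤ k := hK₁.trans hkK
  have hk1 : 1 ≤ k := by exact_mod_cast hk1r
  refine ⟨k, hk1, fun η hη => ?_⟩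
  obtain ⟨K, hK⟩ : ∃ K : ℕ, 8 / η + 4 < K := exists_nat_gt _
  have hη8 : 0 < 8 / η := by positivity
  have hK4 : (4 : ℝ) < K := by linarith
  have hK0 : (0 : ℝ) < K := by linarith
  refine ⟨K, by exact_mod_cast (by linarith : (1 : ℝ) ≤ K), fun B₀ => ?_⟩
  obtain ⟨B₁, hB₁⟩ : ∃ B₁ : ℕ, 3 / η < B₁ := exists_nat_gt _
  set B : ℕ := max B₀ B₁ with hB
  obtain ⟨x₀, hx₀3, hx₀⟩ := hcore B
  obtain ⟨M₀, hM₀⟩ := dl_half (ε / 4) (by positivity)
  have hlogtop : Tendsto (fun x : ℕ => Real.log (x : ℝ)) atTop atTop :=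
    Real.tendsto_log_atTop.comp tendsto_natCast_atTop_atTop
  have e1 := hlogtop.eventually_ge_atTop (4 * (k : ℝ) ^ 2)
  have e2 := hlogtop.eventually_ge_atTop ((M₀ : ℝ) + 2)
  have e3 := hlogtop.eventually_ge_atTop (12 / ε ^ 2)
  have e4 := ev_log (4 * 12 / ε ^ 2) (1 / (K : ℝ)) (by positivity) 1
  have e5 := ev_log (4 / ε) (1 / 2) (by norm_num) 2
  filter_upwards [eventually_ge_atTop x₀, e1, e2, e3, e4, e5] with x hxx₀ hx1 hx2 hx3 hx4 hx5
  obtain ⟨hz2, hzk, hzs, hzl, hzR, hx3'⟩ := z_facts k x hk1 hx1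
  obtain ⟨hL120, hc⟩ := hx₀ x hxx₀
  set z := zf k x with hz
  set L := Real.log x with hL
  have hx0 : (0 : ℝ) < x := by exact_mod_cast (by omega : 0 < x)
  have hxone : (1 : ℝ) ≤ x := by exact_mod_cast (by omega : 1 ≤ x)
  have hL0 : 0 < L := by linarith
  have hL1 : 1 ≤ L := by linarith
  have hz1 : (1 : ℝ) ≤ z := by exact_mod_cast (by omega : 1 ≤ z)
  have hz0 : (0 : ℝ) < z := by linarith
  have hzK₁ : (z : ℝ) ^ K₁ ≤ x := by
    calc (z : ℝ) ^ K₁ ≤ (z : ℝ) ^ (k : ℝ) := Real.rpow_le_rpow_of_exponent_le hz1 hkK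
      _ = (z : ℝ) ^ k := Real.rpow_natCast _ _
      _ ≤ x := hzk
  obtain ⟨-, hLBz, hT0, hTlow, hTQ, -⟩ := hc z hzs hzK₁
  have hlz0 : 0 < Real.log z := by
    apply Real.log_pos
    exact_mod_cast (by omega : 1 < z)
  have hT : (x : ℝ) / L ^ 2 ≤ (TT x z).card := by
    refine le_trans ?_ hTlow
    apply div_le_div_of_nonneg_left hx0.le (by positivity)
    have h1 := Real.log_le_log (by positivity) hzK₁
    rw [Real.log_rpow hz0] at h1
    calc K₁ * (L * Real.log z) = L * (K₁ * Real.log z) := by ring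
      _ ≤ L * L := mul_le_mul_of_nonneg_left h1 hL0.le
      _ = L ^ 2 := by ring
  have hsmall : ∀ m : ℕ, Odd m → Squarefree m → (m : ℝ) ≤ L ^ B →
      |((TQ x z m).card : ℝ) - dl m * (TT x z).card| ≤ ε / 2 * (TT x z).card := by
    intro m hodd hsf hmL
    apply hTQ m hsf _ hmL
    intro q hq
    have hqp := Nat.prime_of_mem_primeFactors hq
    have hqd := Nat.dvd_of_mem_primeFactors hq
    rw [mem_OP]
    refine ⟨hqp, ?_, ?_⟩
    · rcases hqp.eq_two_or_odd' with h | h
      · exfalso
        rw [h] at hqd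
        exact (Nat.not_even_iff_odd.2 hodd) (even_iff_two_dvd.2 hqd)
      · have := hqp.two_le
        obtain ⟨t, ht⟩ := h
        omega
    · have h1 : q ≤ m := Nat.le_of_dvd (Nat.pos_of_ne_zero hsf.ne_zero) hqd
      have h2 : (q : ℝ) ≤ z := by
        calc (q : ℝ) ≤ m := by exact_mod_cast h1
          _ ≤ L ^ B := hmL
          _ ≤ z := hLBz
      exact_mod_cast h2
  have hsmall2 : ∀ y : ℕ, (y : ℝ) ≤ L ^ B → BD ε k x y = ∅ := by
    intro y hy
    unfold BD
    rw [filter_eq_empty_iff]
    rintro m hm ⟨hodd, hsf, hbad⟩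
    rw [mem_Icc] at hm
    have h1 := hsmall m hodd hsf (le_trans (by exact_mod_cast hm.2) hy)
    rw [← hz] at hbad
    have h2 : 0 < ε / 2 * ((TT x z).card : ℝ) := by positivity
    linarith
  refine ⟨hT, ?_, ?_⟩
  · intro y hy
    apply hsmall2 y (hy.trans _)
    exact pow_le_pow_right₀ hL1 (le_max_left _ _)
  · intro y hy1 hly
    rcases le_or_gt (y : ℝ) (L ^ B) with hyB | hyB
    · rw [hsmall2 y hyB, card_empty, Nat.cast_zero]
      positivity
    · -- large y
      have hy1r : (1 : ℝ) ≤ y := by exact_mod_cast hy1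
      have hLB1 : L ≤ L ^ B := by
        have hB1 : 1 ≤ B := by
          have h1 : 0 < 3 / η := by positivity
          have h2 : (0 : ℝ) < B₁ := by linarith
          have h3 : 0 < B₁ := by exact_mod_cast h2
          exact le_trans (by omega) (le_max_right _ _)
        calc L = L ^ 1 := (pow_one L).symm
          _ ≤ L ^ B := pow_le_pow_right₀ hL1 hB1
      have hy2 : (1 : ℝ) < y := by linarith
      have hly0 : 0 < Real.log y := Real.log_pos hy2
      set r : ℕ := ⌈2 * Real.log y / L⌉₊ with hr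
      have hr1 : 1 ≤ r := Nat.one_le_ceil_iff.2 (by positivity)
      have hrlow : 2 * Real.log y / L ≤ r := Nat.le_ceil _
      have hrup : (r : ℝ) < 2 * Real.log y / L + 1 := Nat.ceil_lt_add_one (by positivity)
      have hr0 : (0 : ℝ) < r := by exact_mod_cast hr1
      -- the bias
      have hω : ∀ m : ℕ, 1 ≤ m → m ≤ y → (m.primeFactors.card : ℝ) ≤ ε / 2 * (TT x z).card := by
        intro m hm1 hmy
        have h1 := Pool.Agent.N430.PS.card_pf m y hm1 hmy
        have h2 : 2 * Real.log y ≤ 2 * (x : ℝ) ^ (1 / 2 : ℝ) := by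
          have h3 : (x : ℝ) ^ (1 / (K : ℝ)) ≤ (x : ℝ) ^ (1 / 2 : ℝ) := by
            apply Real.rpow_le_rpow_of_exponent_le hxone
            apply one_div_le_one_div_of_le (by norm_num)
            linarith
          linarith
        have h3 : 2 * (x : ℝ) ^ (1 / 2 : ℝ) ≤ ε / 2 * ((x : ℝ) / L ^ 2) := by
          have h4 : (x : ℝ) = (x : ℝ) ^ (1 / 2 : ℝ) * (x : ℝ) ^ (1 / 2 : ℝ) := by
            rw [← Real.rpow_add hx0]
            norm_num
          have h5 : 4 / ε * L ^ 2 * (x : ℝ) ^ (1 / 2 : ℝ) ≤ x := by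
            calc _ ≤ (x : ℝ) ^ (1 / 2 : ℝ) * (x : ℝ) ^ (1 / 2 : ℝ) :=
                  mul_le_mul_of_nonneg_right hx5 (by positivity)
              _ = x := h4.symm
          have h6 : ε / 2 * ((x : ℝ) / L ^ 2) = (ε / 2 * x) / L ^ 2 := by ring
          rw [h6, le_div_iff₀ (by positivity)]
          have h7 := mul_le_mul_of_nonneg_left h5 (show 0 ≤ ε / 2 by positivity)
          have h8 : ε / 2 * (4 / ε * L ^ 2 * (x : ℝ) ^ (1 / 2 : ℝ)) =
              2 * (x : ℝ) ^ (1 / 2 : ℝ) * L ^ 2 := by
            field_simp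
            ring
          linarith
        have h4 := mul_le_mul_of_nonneg_left hT (show 0 ≤ ε / 2 by positivity)
        linarith
      have hbias := few_biased r x y hr1 (TT x z) (fun p hp => ⟨TT_prime hp, TT_le hp⟩)
        (ε * (TT x z).card) (by positivity) (BD ε k x y) (by
          intro m hm
          unfold BD at hm
          rw [mem_filter, mem_Icc, ← hz] at hm
          obtain ⟨⟨hm1, hmy⟩, hodd, hsf, hbad⟩ := hm
          refine ⟨hmy, hodd, hsf, ?_⟩
          have hmbig : M₀ ≤ m := by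
            by_contra hcon
            have h1 : (m : ℝ) ≤ L ^ B := by
              have h2 : (m : ℝ) ≤ M₀ := by exact_mod_cast (not_le.1 hcon).le
              linarith
            have h3 := hsmall m hodd hsf h1
            have h4 : 0 < ε / 2 * ((TT x z).card : ℝ) := by positivity
            linarith
          have h1 := hM₀ m hmbig hsf hodd
          have h2 := jac_sum x z m hsf.ne_zero
          have h3 := hω m hm1 hmy
          have h4 : |((TQ x z m).card : ℝ) - dl m * (TT x z).card| ≤
              1 / 2 * |((TT x z).card : ℝ) - 2 * (TQ x z m).card| + ε / 4 * (TT x z).card := by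
            have h5 : ((TQ x z m).card : ℝ) - dl m * (TT x z).card =
                -(1 / 2 * (((TT x z).card : ℝ) - 2 * (TQ x z m).card)) -
                (dl m - 1 / 2) * (TT x z).card := by ring
            rw [h5]
            refine (abs_sub _ _).trans ?_
            rw [abs_neg, abs_mul, abs_mul, abs_of_pos (show (0 : ℝ) < 1 / 2 by norm_num),
              abs_of_pos hT0]
            have := mul_le_mul_of_nonneg_right h1 hT0.le
            linarith
          linarith)
      -- the estimate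
      have hxr : (y : ℝ) ^ 2 ≤ (x : ℝ) ^ r := by
        rw [← Real.log_le_log_iff (by positivity) (by positivity), Real.log_pow, Real.log_pow]
        rw [div_le_iff₀ hL0] at hrlow
        push_cast
        exact hrlow
      set t : ℝ := ((TT x z).card : ℝ) with ht
      have hb2 : ((BD ε k x y).card : ℝ) ≤ 12 * ((r : ℝ) * L ^ 2 / ε ^ 2) ^ r := by
        have h1 : ((BD ε k x y).card : ℝ) * (ε * t) ^ (2 * r) ≤ 12 * (x : ℝ) ^ r * (r * t) ^ r := by
          refine hbias.trans ?_
          apply mul_le_mul_of_nonneg_right _ (by positivity)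
          linarith
        have h2 : (x : ℝ) ≤ t * L ^ 2 := by
          rw [div_le_iff₀ (by positivity)] at hT
          exact hT
        have h3 : 12 * (x : ℝ) ^ r * (r * t) ^ r ≤ 12 * ((r : ℝ) * L ^ 2 / ε ^ 2) ^ r * (ε * t) ^ (2 * r) := by
          have h4 : 12 * ((r : ℝ) * L ^ 2 / ε ^ 2) ^ r * (ε * t) ^ (2 * r) =
              12 * (t * L ^ 2) ^ r * (r * t) ^ r := by
            rw [pow_mul (ε * t) 2 r, mul_assoc, ← mul_pow, mul_assoc 12, ← mul_pow]
            congr 2
            field_simp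
          rw [h4]
          apply mul_le_mul_of_nonneg_right _ (by positivity)
          apply mul_le_mul_of_nonneg_left _ (by norm_num)
          exact pow_le_pow_left₀ hx0.le h2 r
        exact le_of_mul_le_mul_right (h1.trans h3) (by positivity)
      refine hb2.trans ?_
      rcases Nat.lt_or_ge r 2 with hr2 | hr2
      · -- r = 1
        have hr1' : r = 1 := by omega
        rw [hr1', pow_one, Nat.cast_one, one_mul]
        have hBη : (3 : ℝ) ≤ B * η := by
          have h1 : (B₁ : ℝ) ≤ B := by exact_mod_cast le_max_right _ _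
          rw [div_lt_iff₀ hη] at hB₁
          nlinarith
        calc 12 * (L ^ 2 / ε ^ 2) = 12 / ε ^ 2 * L ^ 2 := by ring
          _ ≤ L * L ^ 2 := mul_le_mul_of_nonneg_right hx3 (by positivity)
          _ = L ^ (3 : ℝ) := by
            rw [show (3 : ℝ) = ((3 : ℕ) : ℝ) by norm_num, Real.rpow_natCast]
            ring
          _ ≤ L ^ ((B : ℝ) * η) := Real.rpow_le_rpow_of_exponent_le hL1 hBη
          _ = (L ^ B) ^ η := by rw [Real.rpow_mul hL0.le, Real.rpow_natCast]
          _ ≤ (y : ℝ) ^ η := Real.rpow_le_rpow (by positivity) hyB.le hη.le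
      · -- r ≥ 2
        have hr2r : (2 : ℝ) ≤ r := by exact_mod_cast hr2
        have h1 : (r : ℝ) ≤ 4 * Real.log y / L := by
          have h2 : 1 < 2 * Real.log y / L := by linarith
          have h3 : 4 * Real.log y / L = 2 * (2 * Real.log y / L) := by ring
          rw [h3]
          linarith
        set q : ℝ := (x : ℝ) ^ (1 / (K : ℝ)) with hq
        have hq1 : 1 ≤ q := Real.one_le_rpow hxone (by positivity)
        have h4 : (r : ℝ) * L ^ 2 / ε ^ 2 ≤ q ^ 2 / 12 := by
          have h5 : (r : ℝ) * L ^ 2 ≤ 4 * Real.log y * L := by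
            rw [le_div_iff₀ hL0] at h1
            nlinarith
          rw [div_le_iff₀ (by positivity)]
          rw [pow_one] at hx4
          have h6 : 4 * L * 12 ≤ q * ε ^ 2 := by
            have h7 : 4 * 12 / ε ^ 2 * L = (4 * L * 12) / ε ^ 2 := by ring
            rw [h7, div_le_iff₀ (by positivity)] at hx4
            exact hx4
          have h8 : 4 * Real.log y * L * 12 ≤ q * (q * ε ^ 2) := by
            calc 4 * Real.log y * L * 12 = Real.log y * (4 * L * 12) := by ring
              _ ≤ q * (q * ε ^ 2) := mul_le_mul hly h6 (by positivity) (by linarith)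
          have h9 : q ^ 2 / 12 * ε ^ 2 = q * (q * ε ^ 2) / 12 := by ring
          rw [h9, le_div_iff₀ (by norm_num)]
          nlinarith
        calc 12 * ((r : ℝ) * L ^ 2 / ε ^ 2) ^ r ≤ 12 * (q ^ 2 / 12) ^ r := by
              apply mul_le_mul_of_nonneg_left _ (by norm_num)
              exact pow_le_pow_left₀ (by positivity) h4 r
          _ ≤ (q ^ 2) ^ r := by
              rw [div_pow]
              have h5 : (12 : ℝ) ≤ 12 ^ r := by
                calc (12 : ℝ) = 12 ^ 1 := (pow_one _).symm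
                  _ ≤ 12 ^ r := pow_le_pow_right₀ (by norm_num) hr1
              have h6 : 12 * ((q ^ 2) ^ r / 12 ^ r) = (q ^ 2) ^ r * (12 / 12 ^ r) := by ring
              rw [h6]
              apply mul_le_of_le_one_right (by positivity)
              rw [div_le_one (by positivity)]
              exact h5
          _ = Real.exp (2 * r * L / K) := by
              rw [← pow_mul, hq, ← Real.rpow_natCast, ← Real.rpow_mul hx0.le,
                Real.rpow_def_of_pos hx0]
              congr 1
              push_cast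
              rw [← hL]
              ring
          _ ≤ Real.exp (Real.log y * η) := by
              apply Real.exp_le_exp.2
              rw [div_le_iff₀ hK0]
              have h5 : (r : ℝ) * L ≤ 4 * Real.log y := by
                rw [le_div_iff₀ hL0] at h1
                exact h1
              have h6 : 8 ≤ η * K := by
                have : 8 / η < K := by linarith
                rw [div_lt_iff₀ hη] at this
                linarith
              nlinarith
          _ = (y : ℝ) ^ η := by rw [Real.rpow_def_of_pos (by linarith)]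

end Pool.Agent.N430.LK
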