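import Pool.Agent.Y855.A6

set_option autoImplicit false

/-! Sets of integers without large multiplicatively independent subsets are small. -/

namespace Pool.Agent.N430.LK

open Finset
open Pool.Agent.Y855

/-- a subspace of a function space is determined by few coordinates -/
theorem coords {ι : Type*} [Fintype ι] (d : ℕ) :
    ∀ V : Submodule ℚ (ι → ℚ), Module.finrank ℚ V ≤ d →
      ∃ T : Finset ι, T.card ≤ d ∧ ∀ f ∈ V, (∀ i ∈ T, f i = 0) → f = 0 := by
  classical
  induction d with
  | zero =>
    intro V hV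
    refine ⟨∅, by simp, fun f hf _ => ?_⟩
    have h1 : V = ⊥ := by
      rw [← Submodule.finrank_eq_zero (R := ℚ)]
      omega
    rw [h1, Submodule.mem_bot] at hf
    exact hf
  | succ d ih =>
    intro V hV
    by_cases h : ∃ f ∈ V, f ≠ 0
    · obtain ⟨f, hf, hne⟩ := h
      obtain ⟨i, hi⟩ := Function.ne_iff.1 hne
      set V' : Submodule ℚ (ι → ℚ) := V ⊓ LinearMap.ker (LinearMap.proj i : (ι → ℚ) →ₗ[ℚ] ℚ) with hV'
      have hlt : V' < V := by
        refine lt_of_le_of_ne inf_le_left ?_
        intro heq
        have h1 : f ∈ V' := by rw [heq]; exact hf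
        rw [hV', Submodule.mem_inf, LinearMap.mem_ker] at h1
        exact hi h1.2
      have hfr := Submodule.finrank_lt_finrank_of_lt hlt
      obtain ⟨T, hT, hT2⟩ := ih V' (by omega)
      refine ⟨insert i T, (card_insert_le _ _).trans (by omega), fun g hg h2 => ?_⟩
      apply hT2 g
      · rw [hV', Submodule.mem_inf, LinearMap.mem_ker]
        exact ⟨hg, h2 i (mem_insert_self _ _)⟩
      · intro j hj
        exact h2 j (mem_insert_of_mem hj)
    · push Not at h
      exact ⟨∅, by simp, fun f hf _ => h f hf⟩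

/-- the vector of the valuations -/
noncomputable def vv (P : Finset ℕ) (n : ℤ) : P → ℚ := fun p => ((padicValRat p.1 (n : ℚ) : ℤ) : ℚ)

lemma val_prod (p : ℕ) [Fact p.Prime] (I : Finset ℤ) (h0 : ∀ n ∈ I, n ≠ 0) (c : ℤ → ℤ) :
    padicValRat p (∏ n ∈ I, (n : ℚ) ^ (c n)) = ∑ n ∈ I, c n * padicValRat p (n : ℚ) := by
  classical
  induction I using Finset.induction_on with
  | empty => simp
  | insert a s ha ih =>
    rw [prod_insert ha, sum_insert ha, padicValRat.mul, padicValRat.zpow, ih]
    · intro n hn
      exact h0 n (mem_insert_of_mem hn)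
    · apply zpow_ne_zero
      exact_mod_cast h0 a (mem_insert_self _ _)
    · rw [prod_ne_zero_iff]
      intro n hn
      apply zpow_ne_zero
      exact_mod_cast h0 n (mem_insert_of_mem hn)

theorem mem_span (P : Finset ℕ) (hP : ∀ p ∈ P, p.Prime) (I : Finset ℤ) (h0 : ∀ n ∈ I, n ≠ 0)
    (hI : MI I) (n : ℤ) (hn0 : n ≠ 0) (hn : n ∉ I) (hnot : ¬ MI (insert n I)) :
    vv P n ∈ Submodule.span ℚ ((I.image (vv P) : Finset (P → ℚ)) : Set (P → ℚ)) := by
  classical
  unfold MI at hnot
  push Not at hnot
  obtain ⟨c, hc, m, hm, hcm⟩ := hnot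
  have hcn : c n ≠ 0 := by
    intro h
    rw [prod_insert hn, h, zpow_zero, one_mul] at hc
    have h1 := hI c hc
    rw [mem_insert] at hm
    rcases hm with rfl | hm
    · exact hcm h
    · exact hcm (h1 m hm)
  have h0' : ∀ m ∈ insert n I, m ≠ 0 := by
    intro m hm
    rw [mem_insert] at hm
    rcases hm with rfl | hm
    · exact hn0
    · exact h0 m hm
  have hrel : ∀ p : P, (c n : ℚ) * vv P n p + ∑ m ∈ I, (c m : ℚ) * vv P m p = 0 := by
    intro p
    have : Fact p.1.Prime := ⟨hP p.1 p.2⟩
    have h1 := val_prod p.1 (insert n I) h0' c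
    rw [hc, padicValRat.one, sum_insert hn] at h1
    unfold vv
    have h2 := congrArg (fun t : ℤ => (t : ℚ)) h1.symm
    push_cast at h2
    exact h2
  have hcn' : (c n : ℚ) ≠ 0 := by exact_mod_cast hcn
  have heq : vv P n = ∑ m ∈ I, (-(c m : ℚ) / (c n : ℚ)) • vv P m := by
    funext p
    rw [Finset.sum_apply]
    simp only [Pi.smul_apply, smul_eq_mul]
    have h1 := hrel p
    have h2 : ∑ m ∈ I, -(c m : ℚ) / (c n : ℚ) * vv P m p =
        -(∑ m ∈ I, (c m : ℚ) * vv P m p) / (c n : ℚ) := by
      rw [← Finset.sum_neg_distrib, Finset.sum_div]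
      refine Finset.sum_congr rfl fun m _ => ?_
      ring
    rw [h2, eq_div_iff hcn']
    linarith
  rw [heq]
  apply Submodule.sum_mem
  intro m hm
  apply Submodule.smul_mem
  apply Submodule.subset_span
  exact mem_coe.2 (mem_image_of_mem _ hm)

/-- **counting** -/
theorem count (N m : ℕ) (E : Finset ℤ) (h0 : ∀ n ∈ E, n ≠ 0) (hN : ∀ n ∈ E, n.natAbs ≤ N)
    (hE : ∀ I ⊆ E, MI I → I.card ≤ m) : E.card ≤ 2 * (Nat.log 2 N + 1) ^ m := by
  classical
  -- a maximal independent subset
  have hne : (E.powerset.filter (fun I => MI I)).Nonempty := by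
    refine ⟨∅, ?_⟩
    rw [mem_filter]
    exact ⟨empty_mem_powerset _, fun c _ n hn => by simp at hn⟩
  obtain ⟨I, hI, hmax⟩ := exists_max_image (E.powerset.filter (fun I => MI I)) card hne
  rw [mem_filter, mem_powerset] at hI
  set P : Finset ℕ := (Icc 1 N).filter Nat.Prime with hP
  have hPp : ∀ p ∈ P, p.Prime := fun p hp => (mem_filter.1 hp).2
  set V : Submodule ℚ (P → ℚ) :=
    Submodule.span ℚ ((I.image (vv P) : Finset (P → ℚ)) : Set (P → ℚ)) with hV
  have hdim : Module.finrank ℚ V ≤ m := by
    refine (finrank_span_finset_le_card _).trans (card_image_le.trans (hE I hI.1 hI.2))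
  have hmem : ∀ n ∈ E, vv P n ∈ V := by
    intro n hn
    by_cases hnI : n ∈ I
    · apply Submodule.subset_span
      exact mem_coe.2 (mem_image_of_mem _ hnI)
    · apply mem_span P hPp I (fun a ha => h0 a (hI.1 ha)) hI.2 n (h0 n hn) hnI
      intro hMI
      have h1 := hmax (insert n I) (by
        rw [mem_filter, mem_powerset]
        exact ⟨insert_subset hn hI.1, hMI⟩)
      rw [card_insert_of_notMem hnI] at h1
      omega
  obtain ⟨T, hT, hT2⟩ := coords m V hdim
  -- the injection
  set F : Finset ((T → ℕ) × Bool) :=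
    (Fintype.piFinset (fun _ : T => range (Nat.log 2 N + 1))) ×ˢ univ with hF
  have hFc : F.card ≤ 2 * (Nat.log 2 N + 1) ^ m := by
    rw [hF, card_product, Fintype.card_piFinset, prod_const, card_range, card_univ, card_univ,
      Fintype.card_coe, Fintype.card_bool, mul_comm]
    exact Nat.mul_le_mul_left _ (Nat.pow_le_pow_right (Nat.succ_pos _) hT)
  refine le_trans ?_ hFc
  apply card_le_card_of_injOn (fun n : ℤ =>
    ((fun t : T => padicValNat t.1.1 n.natAbs), decide (0 < n)))
  · intro n hn
    have hn' := mem_coe.1 hn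
    rw [mem_coe, hF, mem_product]
    refine ⟨?_, mem_univ _⟩
    rw [Fintype.mem_piFinset]
    intro t
    rw [mem_range]
    have h1 : padicValNat t.1.1 n.natAbs ≤ Nat.log t.1.1 n.natAbs := padicValNat_le_nat_log _
    have h2 : Nat.log t.1.1 n.natAbs ≤ Nat.log 2 n.natAbs :=
      Nat.log_anti_left (by norm_num) (hPp t.1.1 t.1.2).two_le
    have h3 : Nat.log 2 n.natAbs ≤ Nat.log 2 N := Nat.log_mono_right (hN n hn')
    simp only
    omega
  · intro a ha b hb hab
    have ha' := mem_coe.1 ha
    have hb' := mem_coe.1 hb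
    simp only [Prod.mk.injEq] at hab
    obtain ⟨h1, h2⟩ := hab
    have hsub : vv P a - vv P b = 0 := by
      apply hT2 _ (Submodule.sub_mem _ (hmem a ha') (hmem b hb'))
      intro i hi
      have h3 := congrFun h1 ⟨i, hi⟩
      simp only at h3
      rw [Pi.sub_apply]
      unfold vv
      rw [padicValRat.of_int, padicValRat.of_int]
      unfold padicValInt
      rw [h3, sub_self]
    have habs : a.natAbs = b.natAbs := by
      apply Nat.eq_of_factorization_eq (Int.natAbs_ne_zero.2 (h0 a ha'))
        (Int.natAbs_ne_zero.2 (h0 b hb'))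
      intro p
      by_cases hp : p.Prime
      · by_cases hpN : p ≤ N
        · have hpP : p ∈ P := by
            rw [hP, mem_filter, mem_Icc]
            exact ⟨⟨hp.one_le, hpN⟩, hp⟩
          have h4 := congrFun hsub ⟨p, hpP⟩
          rw [Pi.sub_apply, Pi.zero_apply, sub_eq_zero] at h4
          unfold vv at h4
          rw [padicValRat.of_int, padicValRat.of_int] at h4
          unfold padicValInt at h4
          rw [Nat.factorization_def _ hp, Nat.factorization_def _ hp]
          exact_mod_cast h4
        · have h5 : ∀ c : ℤ, c ∈ E → c.natAbs.factorization p = 0 := by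
            intro c hc
            apply Nat.factorization_eq_zero_of_not_dvd
            intro hd
            have h6 := Nat.le_of_dvd (Int.natAbs_pos.2 (h0 c hc)) hd
            have h7 := hN c hc
            omega
          rw [h5 a ha', h5 b hb']
      · rw [Nat.factorization_eq_zero_of_not_prime _ hp, Nat.factorization_eq_zero_of_not_prime _ hp]
    have hsign : (0 < a ↔ 0 < b) := by
      have := h2
      rw [decide_eq_decide] at this
      exact this
    have ha0 := h0 a ha'
    have hb0 := h0 b hb'
    omega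

end Pool.Agent.N430.LK
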