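import Pool.Agent.Y855.A7

set_option autoImplicit false

/-! The number of the exceptional primes, for integers of arbitrary size. -/

namespace Pool.Agent.N430.LK

open Finset
open Pool.Agent.Y855

lemma log2_real (N : ℕ) (hN : 1 ≤ N) : (Nat.log 2 N : ℝ) ≤ 2 * Real.log N := by
  have h1 : 2 ^ Nat.log 2 N ≤ N := Nat.pow_log_le_self 2 (by omega)
  have h2 : (2 : ℝ) ^ Nat.log 2 N ≤ N := by exact_mod_cast h1
  have h3 := Real.log_le_log (by positivity) h2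
  rw [Real.log_pow] at h3
  have h4 := Real.log_two_gt_d9
  have h5 : (0 : ℝ) ≤ (Nat.log 2 N : ℝ) := Nat.cast_nonneg _
  nlinarith

theorem exc_one (r R m x N : ℕ) (hr : 2 ≤ r) (hrR : r ≤ R) (hx : 1 ≤ x) (hN : 1 ≤ N) (M : Finset ℤ)
    (h0 : ∀ n ∈ M, n ≠ 0) (hM : MI M) (hMN : ∀ n ∈ M, n.natAbs ≤ N) (hMm : M.card ≤ m) :
    ((Exc x r M).card : ℝ) ≤ ((m : ℝ) + 1) ^ R * 5 ^ R * (4 * R) * (Real.log N + 1) *
      (x : ℝ) ^ (1 - 1 / (R : ℝ)) := by
  have hx1 : (1 : ℝ) ≤ x := by exact_mod_cast hx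
  have hx0 : (0 : ℝ) < x := by linarith
  have hr2 : (2 : ℝ) ≤ r := by exact_mod_cast hr
  have hrR' : (r : ℝ) ≤ R := by exact_mod_cast hrR
  have hr0 : (0 : ℝ) < r := by linarith
  have hN1 : (1 : ℝ) ≤ N := by exact_mod_cast hN
  have hlN : 0 ≤ Real.log N := Real.log_nonneg hN1
  set θ : ℝ := ((r : ℝ) - 2) / ((r : ℝ) * r) with hθ
  have hθ0 : 0 ≤ θ := div_nonneg (by linarith) (by positivity)
  set y : ℝ := (x : ℝ) ^ θ with hy
  have hy1 : 1 ≤ y := Real.one_le_rpow hx1 hθ0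
  set A : ℕ := ⌊y⌋₊ + 1 with hA
  have hyA : y < A := by rw [hA]; push_cast; exact Nat.lt_floor_add_one y
  have hA2 : (A : ℝ) ≤ 2 * y := by
    rw [hA]; push_cast
    have := Nat.floor_le (by linarith : 0 ≤ y)
    linarith
  have hA1 : (1 : ℝ) ≤ A := by linarith
  have hcond : x ^ (r - 2) < A ^ (r * r) := by
    have h1 : ((x : ℝ)) ^ (r - 2) = y ^ (r * r) := by
      rw [hy, ← Real.rpow_natCast, ← Real.rpow_natCast, ← Real.rpow_mul hx0.le]
      congr 1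
      push_cast [Nat.cast_sub hr]
      rw [hθ]
      field_simp
    have h2 : y ^ (r * r) < (A : ℝ) ^ (r * r) :=
      pow_lt_pow_left₀ hyA (by linarith) (by positivity)
    rw [← h1] at h2
    exact_mod_cast h2
  have h1 := Exc_card x r hx hr M h0 hM N A hN hMN hcond
  have h2 : ((Exc x r M).card : ℝ) ≤
      (M.card : ℝ) ^ r * ((2 * (A : ℝ) + 1) ^ r * (1 + ((Nat.log 2 N : ℝ) + 1) * (r * A))) := by
    exact_mod_cast h1
  refine h2.trans ?_
  have hm1 : (M.card : ℝ) ^ r ≤ ((m : ℝ) + 1) ^ R := by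
    have h3 : (M.card : ℝ) ≤ (m : ℝ) + 1 := by
      have : (M.card : ℝ) ≤ m := by exact_mod_cast hMm
      linarith
    have h4 : (1 : ℝ) ≤ (m : ℝ) + 1 := by
      have : (0 : ℝ) ≤ m := Nat.cast_nonneg _
      linarith
    exact (pow_le_pow_left₀ (Nat.cast_nonneg _) h3 r).trans (pow_le_pow_right₀ h4 hrR)
  have h5 : (2 * (A : ℝ) + 1) ^ r ≤ 5 ^ R * y ^ r := by
    calc (2 * (A : ℝ) + 1) ^ r ≤ (5 * y) ^ r := pow_le_pow_left₀ (by positivity) (by linarith) r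
      _ = 5 ^ r * y ^ r := mul_pow _ _ _
      _ ≤ 5 ^ R * y ^ r := by
        apply mul_le_mul_of_nonneg_right _ (by positivity)
        exact pow_le_pow_right₀ (by norm_num) hrR
  have h6 : 1 + ((Nat.log 2 N : ℝ) + 1) * (r * A) ≤ (4 * R) * (Real.log N + 1) * y := by
    have h7 := log2_real N hN
    have h8 : (1 : ℝ) ≤ r * y := by nlinarith
    have h9 : ((Nat.log 2 N : ℝ) + 1) * (r * A) ≤ (2 * Real.log N + 1) * (r * (2 * y)) := by
      apply mul_le_mul (by linarith) _ (by positivity) (by positivity)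
      exact mul_le_mul_of_nonneg_left hA2 hr0.le
    have h10 : (2 * Real.log N + 1) * (r * (2 * y)) + r * y ≤ (4 * r) * (Real.log N + 1) * y := by
      have : 0 ≤ r * y := by positivity
      nlinarith
    have h11 : (4 * (r : ℝ)) * (Real.log N + 1) * y ≤ (4 * R) * (Real.log N + 1) * y := by
      gcongr
    linarith
  have hexp : y ^ r * y ≤ (x : ℝ) ^ (1 - 1 / (R : ℝ)) := by
    rw [← pow_succ, hy, ← Real.rpow_natCast, ← Real.rpow_mul hx0.le]
    apply Real.rpow_le_rpow_of_exponent_le hx1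
    have h12 : θ * ((r + 1 : ℕ) : ℝ) ≤ 1 - 1 / (r : ℝ) := by
      rw [hθ]
      push_cast
      rw [div_mul_eq_mul_div, div_le_iff₀ (by positivity)]
      have h13 : (1 - 1 / (r : ℝ)) * (r * r) = r * r - r := by
        field_simp
      rw [h13]
      nlinarith
    have h14 : 1 / (R : ℝ) ≤ 1 / (r : ℝ) := one_div_le_one_div_of_le hr0 hrR'
    linarith
  calc (M.card : ℝ) ^ r * ((2 * (A : ℝ) + 1) ^ r * (1 + ((Nat.log 2 N : ℝ) + 1) * (r * A)))
      ≤ ((m : ℝ) + 1) ^ R * ((5 ^ R * y ^ r) * ((4 * R) * (Real.log N + 1) * y)) := by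
        apply mul_le_mul hm1 _ (by positivity) (by positivity)
        exact mul_le_mul h5 h6 (by positivity) (by positivity)
    _ = ((m : ℝ) + 1) ^ R * 5 ^ R * (4 * R) * (Real.log N + 1) * (y ^ r * y) := by ring
    _ ≤ _ := mul_le_mul_of_nonneg_left hexp (by positivity)

theorem exc_sum (R m x N : ℕ) (hx : 1 ≤ x) (hN : 1 ≤ N) (M : Finset ℤ)
    (h0 : ∀ n ∈ M, n ≠ 0) (hM : MI M) (hMN : ∀ n ∈ M, n.natAbs ≤ N) (hMm : M.card ≤ m) :
    ∑ r ∈ Icc 2 R, ((Exc x r M).card : ℝ) ≤ R * (((m : ℝ) + 1) ^ R * 5 ^ R * (4 * R) *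
      (Real.log N + 1) * (x : ℝ) ^ (1 - 1 / (R : ℝ))) := by
  have hlN : 0 ≤ Real.log N := Real.log_natCast_nonneg N
  calc ∑ r ∈ Icc 2 R, ((Exc x r M).card : ℝ)
      ≤ ∑ _r ∈ Icc 2 R, (((m : ℝ) + 1) ^ R * 5 ^ R * (4 * R) *
      (Real.log N + 1) * (x : ℝ) ^ (1 - 1 / (R : ℝ))) := by
        apply Finset.sum_le_sum
        intro r hr
        rw [mem_Icc] at hr
        exact exc_one r R m x N hr.1 hr.2 hx hN M h0 hM hMN hMm
    _ = ((Icc 2 R).card : ℝ) * (((m : ℝ) + 1) ^ R * 5 ^ R * (4 * R) *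
      (Real.log N + 1) * (x : ℝ) ^ (1 - 1 / (R : ℝ))) := by rw [sum_const, nsmul_eq_mul]
    _ ≤ _ := by
      apply mul_le_mul_of_nonneg_right _ (by positivity)
      rw [Nat.card_Icc]
      exact_mod_cast (by omega : R + 1 - 2 ≤ R)

end Pool.Agent.N430.LK
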