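import Pool.Agent.N430.LK.Bias

set_option autoImplicit false

/-! The structure theorem for one `x`. -/

namespace Pool.Agent.N430.LK

open Finset Filter
open Pool.Agent.Y855

/-- the exceptional sets at `x` -/
def Str (ε η : ℝ) (k K N x : ℕ) : Prop :=
  (x : ℝ) / (Real.log x) ^ 2 ≤ (TT x (zf k x)).card ∧
  ∃ (E : Finset ℤ) (B : Finset ℕ), (E.card : ℝ) ≤ (Real.log N) ^ K ∧ (∀ b ∈ B, Real.log x < b) ∧
    (∀ y : ℕ, y ≤ N → ((B.filter (fun b => b ≤ y)).card : ℝ) ≤ (y : ℝ) ^ η) ∧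
    ∀ n D m : ℤ, n = D * m ^ 2 → n ≠ 0 → n.natAbs ≤ N → Squarefree D → D % 4 = 1 → n ∉ E →
      D.natAbs ∉ B →
        |((PR n x (zf k x)).card : ℝ) - dl D.natAbs * (TT x (zf k x)).card| ≤
          ε * (TT x (zf k x)).card

theorem loglog_facts (K K' x N : ℕ) (hK : 1 ≤ K) (hKK : K ≤ K') (hN : 3 ≤ N) (hx : (Real.log N) ^ K' ≤ x) :
    Real.log N ≤ (x : ℝ) ^ (1 / (K : ℝ)) := by
  have hK0 : (0 : ℝ) < K := by exact_mod_cast hK
  have hNr : (3 : ℝ) ≤ N := by exact_mod_cast hN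
  have hl1 : 1 ≤ Real.log N := by
    rw [Real.le_log_iff_exp_le (by linarith)]
    have := Real.exp_one_lt_d9
    linarith
  have h1 : (Real.log N) ^ K ≤ x := (pow_le_pow_right₀ hl1 hKK).trans hx
  have h2 : ((Real.log N) ^ K) ^ (1 / (K : ℝ)) ≤ (x : ℝ) ^ (1 / (K : ℝ)) :=
    Real.rpow_le_rpow (by positivity) h1 (by positivity)
  rwa [← Real.rpow_natCast, ← Real.rpow_mul (by linarith), mul_one_div_cancel hK0.ne',
    Real.rpow_one] at h2

theorem one_x (ε : ℝ) (hε : 0 < ε) : ∃ k : ℕ, 1 ≤ k ∧ ∀ η : ℝ, 0 < η → ∃ K : ℕ, 1 ≤ K ∧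
    ∀ᶠ N : ℕ in atTop, ∀ x : ℕ, (Real.log N) ^ K ≤ x → Str ε η k K N x := by
  classical
  obtain ⟨k, hk, hbias⟩ := bias (ε / 4) (by positivity)
  have hk1 : (1 : ℝ) ≤ k := by exact_mod_cast hk
  have hk0 : (0 : ℝ) < k := by linarith
  refine ⟨k, hk, fun η hη => ?_⟩
  obtain ⟨K₁, hK₁, hb⟩ := hbias η hη
  obtain ⟨m₀, hrank⟩ := rank_set (ε / 4) (by positivity) k hk
  obtain ⟨K, hK⟩ : ∃ K : ℕ, K = K₁ + 16 * k + m₀ + 2 := ⟨_, rfl⟩
  refine ⟨K, by omega, ?_⟩
  have hK2 : 2 ≤ K := by omega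
  -- events in `x`
  have e5 := ev_log (12 / ε) (1 / 2) (by norm_num) 2
  obtain ⟨X, hX⟩ := eventually_atTop.1 (((hb 1).and hrank).and (e5.and
    (((Real.tendsto_log_atTop.comp tendsto_natCast_atTop_atTop).eventually_ge_atTop
      (1 : ℝ)))))
  -- events in `N`
  have hlogtop : Tendsto (fun N : ℕ => Real.log (N : ℝ)) atTop atTop :=
    Real.tendsto_log_atTop.comp tendsto_natCast_atTop_atTop
  filter_upwards [eventually_ge_atTop 3, hlogtop.eventually_ge_atTop (X : ℝ),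
    hlogtop.eventually_ge_atTop (2 * 3 ^ m₀ : ℝ)] with N hN hNX hN3 x hx
  have hNr : (3 : ℝ) ≤ N := by exact_mod_cast hN
  have hl1 : 1 ≤ Real.log N := by
    rw [Real.le_log_iff_exp_le (by linarith)]
    have := Real.exp_one_lt_d9
    linarith
  have hlx : Real.log N ≤ x := by
    calc Real.log N = (Real.log N) ^ 1 := (pow_one _).symm
      _ ≤ (Real.log N) ^ K := pow_le_pow_right₀ hl1 (by omega)
      _ ≤ x := hx
  have hXx : X ≤ x := by exact_mod_cast hNX.trans hlx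
  obtain ⟨⟨⟨hT, hB1, hB2⟩, hE⟩, h5, hL1⟩ := hX x hXx
  simp only [Function.comp_apply] at hL1
  have hlN1 : Real.log N ≤ (x : ℝ) ^ (1 / (K₁ : ℝ)) := loglog_facts K₁ K x N hK₁ (by omega) hN hx
  have hlN2 : Real.log N ≤ (x : ℝ) ^ (1 / (16 * (k : ℝ))) := by
    have h := loglog_facts (16 * k) K x N (by omega) (by omega) hN hx
    push_cast at h
    exact h
  have hlN3 : Real.log N ≤ (x : ℝ) ^ (1 / 2 : ℝ) := by
    have h := loglog_facts 2 K x N (by omega) (by omega) hN hx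
    push_cast at h
    exact h
  have hEc := hE hT N (by omega) hlN2
  have hx1 : (1 : ℝ) ≤ x := hl1.trans hlx
  have hx0 : (0 : ℝ) < x := by linarith
  refine ⟨hT, EX (ε / 4) k x N, BD (ε / 4) k x N, ?_, ?_, ?_, ?_⟩
  · have h1 : ((EX (ε / 4) k x N).card : ℝ) ≤ 2 * ((Nat.log 2 N : ℝ) + 1) ^ m₀ := by
      exact_mod_cast hEc
    have h2 := log2_real N (by omega)
    calc ((EX (ε / 4) k x N).card : ℝ) ≤ 2 * ((Nat.log 2 N : ℝ) + 1) ^ m₀ := h1
      _ ≤ 2 * (3 * Real.log N) ^ m₀ := by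
          apply mul_le_mul_of_nonneg_left _ (by norm_num)
          apply pow_le_pow_left₀ (by positivity)
          linarith
      _ = (2 * 3 ^ m₀) * (Real.log N) ^ m₀ := by rw [mul_pow]; ring
      _ ≤ Real.log N * (Real.log N) ^ m₀ := mul_le_mul_of_nonneg_right hN3 (by positivity)
      _ = (Real.log N) ^ (m₀ + 1) := by ring
      _ ≤ (Real.log N) ^ K := pow_le_pow_right₀ hl1 (by omega)
  · intro b hbB
    by_contra hcon
    have h1 : (b : ℝ) ≤ (Real.log x) ^ 1 := by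
      rw [pow_one]
      exact not_lt.1 hcon
    have h2 := hB1 b h1
    have h3 : b ∈ BD (ε / 4) k x b := by
      unfold BD at hbB ⊢
      rw [mem_filter, mem_Icc] at hbB ⊢
      exact ⟨⟨hbB.1.1, le_rfl⟩, hbB.2⟩
    rw [h2] at h3
    simp at h3
  · intro y hyN
    rcases Nat.eq_zero_or_pos y with hy0 | hy0
    · subst hy0
      have : (BD (ε / 4) k x N).filter (fun b => b ≤ 0) = ∅ := by
        rw [filter_eq_empty_iff]
        intro b hbB h
        unfold BD at hbB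
        rw [mem_filter, mem_Icc] at hbB
        omega
      rw [this, card_empty, Nat.cast_zero]
      positivity
    · have h1 : (BD (ε / 4) k x N).filter (fun b => b ≤ y) ⊆ BD (ε / 4) k x y := by
        intro b hbB
        rw [mem_filter] at hbB
        obtain ⟨h2, h3⟩ := hbB
        unfold BD at h2 ⊢
        rw [mem_filter, mem_Icc] at h2 ⊢
        exact ⟨⟨h2.1.1, h3⟩, h2.2⟩
      refine le_trans (by exact_mod_cast card_le_card h1) (hB2 y hy0 ?_)
      refine le_trans ?_ hlN1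
      exact Real.log_le_log (by exact_mod_cast hy0) (by exact_mod_cast hyN)
  · intro n D m hn hn0 hnN hD hD4 hnE hDB
    have h1 := PR_close n D m hn hD4 hn0 x (zf k x)
    set z := zf k x with hz
    have h2 : ((BadP n x z).card : ℝ) ≤ ε / 4 * (TT x z).card := by
      by_contra hcon
      apply hnE
      unfold EX
      rw [mem_filter, mem_Icc]
      exact ⟨by omega, hn0, not_le.1 hcon⟩
    have hodd : Odd D.natAbs := by rw [Nat.odd_iff]; omega
    have hsf : Squarefree D.natAbs := Int.squarefree_natAbs.2 hD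
    have hDN : D.natAbs ≤ N := by
      refine le_trans ?_ hnN
      apply Nat.le_of_dvd (Int.natAbs_pos.2 hn0)
      exact Int.natAbs_dvd_natAbs.2 ⟨m ^ 2, hn⟩
    have h3 : |((TQ x z D.natAbs).card : ℝ) - dl D.natAbs * (TT x z).card| ≤
        ε / 4 * (TT x z).card := by
      by_contra hcon
      apply hDB
      unfold BD
      rw [mem_filter, mem_Icc]
      exact ⟨⟨Nat.pos_of_ne_zero hsf.ne_zero, hDN⟩, hodd, hsf, not_le.1 hcon⟩
    have h4 : (n.natAbs.primeFactors.card : ℝ) ≤ 2 * Real.log N :=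
      Pool.Agent.N430.PS.card_pf n.natAbs N (Int.natAbs_pos.2 hn0) hnN
    have h6 : 1 + 2 * Real.log N ≤ ε / 4 * (TT x z).card := by
      have h7 : 1 + 2 * Real.log N ≤ 3 * (x : ℝ) ^ (1 / 2 : ℝ) := by linarith
      have h8 : 3 * (x : ℝ) ^ (1 / 2 : ℝ) ≤ ε / 4 * ((x : ℝ) / (Real.log x) ^ 2) := by
        have h9 : (x : ℝ) = (x : ℝ) ^ (1 / 2 : ℝ) * (x : ℝ) ^ (1 / 2 : ℝ) := by
          rw [← Real.rpow_add hx0]
          norm_num
        have h10 : 12 / ε * (Real.log x) ^ 2 * (x : ℝ) ^ (1 / 2 : ℝ) ≤ x := by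
          calc _ ≤ (x : ℝ) ^ (1 / 2 : ℝ) * (x : ℝ) ^ (1 / 2 : ℝ) :=
                mul_le_mul_of_nonneg_right h5 (by positivity)
            _ = x := h9.symm
        have hL0 : 0 < Real.log x := by linarith
        have h11 : ε / 4 * ((x : ℝ) / (Real.log x) ^ 2) = (ε / 4 * x) / (Real.log x) ^ 2 := by ring
        rw [h11, le_div_iff₀ (by positivity)]
        have h12 := mul_le_mul_of_nonneg_left h10 (show 0 ≤ ε / 4 by positivity)
        have h13 : ε / 4 * (12 / ε * (Real.log x) ^ 2 * (x : ℝ) ^ (1 / 2 : ℝ)) =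
            3 * (x : ℝ) ^ (1 / 2 : ℝ) * (Real.log x) ^ 2 := by
          field_simp
          ring
        linarith
      have h9 := mul_le_mul_of_nonneg_left hT (show 0 ≤ ε / 4 by positivity)
      linarith
    have h7 : ((PR n x z).card : ℝ) - dl D.natAbs * (TT x z).card =
        (((PR n x z).card : ℝ) - (TQ x z D.natAbs).card) +
        (((TQ x z D.natAbs).card : ℝ) - dl D.natAbs * (TT x z).card) := by ring
    rw [h7]
    refine (abs_add_le _ _).trans ?_
    have h8 : (0 : ℝ) ≤ ε / 4 * (TT x z).card := by positivity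
    linarith

end Pool.Agent.N430.LK
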