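import Pool.Agent.N430.LK.Final1

set_option autoImplicit false

/-! All `x` at once. -/

namespace Pool.Agent.N430.LK

open Finset Filter
open Pool.Agent.Y855
open Pool.Agent.N430.PS (cntP)

lemma dl_third (m : ℕ) (hsf : Squarefree m) (hodd : Odd m) (hm1 : m ≠ 1) : 1 / 3 ≤ dl m := by
  classical
  have h3 : ∀ q ∈ m.primeFactors, 3 ≤ q ∧ Odd q := by
    intro q hq
    have hqp := Nat.prime_of_mem_primeFactors hq
    have hqd := Nat.dvd_of_mem_primeFactors hq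
    rcases hqp.eq_two_or_odd' with h | h
    · exfalso
      rw [h] at hqd
      exact (Nat.not_even_iff_odd.2 hodd) (even_iff_two_dvd.2 hqd)
    · have := hqp.two_le
      refine ⟨?_, h⟩
      obtain ⟨t, ht⟩ := h
      omega
  have hle1 : ∀ q ∈ m.primeFactors, 0 ≤ 1 / ((q : ℝ) - 2) ∧ 1 / ((q : ℝ) - 2) ≤ 1 := by
    intro q hq
    have h4 : (3 : ℝ) ≤ q := by exact_mod_cast (h3 q hq).1
    constructor
    · apply div_nonneg zero_le_one; linarith
    · rw [div_le_one (by linarith)]; linarith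
  have hprod0 : 0 ≤ ∏ q ∈ m.primeFactors, (1 / ((q : ℝ) - 2)) :=
    prod_nonneg fun q hq => (hle1 q hq).1
  unfold dl
  rcases ArithmeticFunction.moebius_ne_zero_iff_eq_or.1
    (ArithmeticFunction.moebius_ne_zero_iff_squarefree.2 hsf) with h | h
  · -- `μ = 1`
    rw [h]
    obtain ⟨q, hq, hq5⟩ : ∃ q ∈ m.primeFactors, 5 ≤ q := by
      by_contra hcon
      push Not at hcon
      have h4 : ∀ q ∈ m.primeFactors, q = 3 := by
        intro q hq
        have h5 := hcon q hq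
        obtain ⟨h6, t, ht⟩ := h3 q hq
        omega
      have h5 : m.primeFactors ⊆ {3} := by
        intro q hq
        rw [mem_singleton]
        exact h4 q hq
      rcases Finset.subset_singleton_iff.1 h5 with h6 | h6
      · rw [Nat.primeFactors_eq_empty] at h6
        rcases h6 with h6 | h6
        · exact hsf.ne_zero h6
        · exact hm1 h6
      · have h7 := Nat.prod_primeFactors_of_squarefree hsf
        rw [h6, prod_singleton] at h7
        rw [← h7, ArithmeticFunction.moebius_apply_prime Nat.prime_three] at h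
        norm_num at h
    have hqr : (5 : ℝ) ≤ q := by exact_mod_cast hq5
    have h8 : ∏ q ∈ m.primeFactors, (1 / ((q : ℝ) - 2)) ≤ 1 / 3 := by
      rw [← mul_prod_erase _ _ hq]
      have h5 : ∏ q ∈ m.primeFactors.erase q, (1 / ((q : ℝ) - 2)) ≤ 1 :=
        prod_le_one (fun q hq => (hle1 q (mem_of_mem_erase hq)).1)
          (fun q hq => (hle1 q (mem_of_mem_erase hq)).2)
      have h6 : 1 / ((q : ℝ) - 2) ≤ 1 / 3 := one_div_le_one_div_of_le (by norm_num) (by linarith)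
      calc _ ≤ 1 / ((q : ℝ) - 2) * 1 := mul_le_mul_of_nonneg_left h5 (hle1 q hq).1
        _ ≤ 1 / 3 := by linarith
    push_cast
    linarith
  · rw [h]
    push_cast
    linarith

lemma PR_le (n : ℤ) (x z : ℕ) : (PR n x z).card ≤ cntP n x := by
  classical
  unfold cntP
  apply card_le_card
  intro p hp
  unfold PR at hp
  rw [mem_filter] at hp
  rw [mem_filter, mem_range]
  exact ⟨Nat.lt_succ_of_le (TT_le hp.1), TT_prime hp.1, hp.2⟩

lemma cntP_mono (n : ℤ) {x y : ℕ} (h : x ≤ y) : cntP n x ≤ cntP n y := by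
  classical
  unfold cntP
  apply card_le_card
  intro p hp
  rw [mem_filter, mem_range] at hp ⊢
  exact ⟨by omega, hp.2⟩

/-- the lower bound between the powers of two -/
theorem lower (k M x : ℕ) (hx : 4 ≤ x) (n D m : ℤ) (hn : n = D * m ^ 2) (hn0 : n ≠ 0)
    (hnM : n.natAbs ≤ M) (hD : Squarefree D) (hD4 : D % 4 = 1) (hD1 : D ≠ 1)
    (T : ℕ) (hT : T = 2 ^ Nat.log 2 x) (E : Finset ℤ) (B : Finset ℕ)
    (h1 : (T : ℝ) / (Real.log T) ^ 2 ≤ (TT T (zf k T)).card)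
    (h2 : ∀ n D m : ℤ, n = D * m ^ 2 → n ≠ 0 → n.natAbs ≤ M → Squarefree D → D % 4 = 1 → n ∉ E →
      D.natAbs ∉ B → |((PR n T (zf k T)).card : ℝ) - dl D.natAbs * (TT T (zf k T)).card| ≤
          1 / 6 * (TT T (zf k T)).card) (hE : n ∉ E) (hB : D.natAbs ∉ B) :
    (x : ℝ) / (12 * (Real.log x) ^ 2) ≤ cntP n x := by
  have hTx : T ≤ x := by rw [hT]; exact Nat.pow_log_le_self 2 (by omega)
  have hxT : x < 2 * T := by
    have := Nat.lt_pow_succ_log_self (b := 2) (by norm_num) x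
    rw [pow_succ] at this
    omega
  have hT2 : 2 < T := by omega
  have h3 := h2 n D m hn hn0 hnM hD hD4 hE hB
  have hodd : Odd D.natAbs := by rw [Nat.odd_iff]; omega
  have hsf : Squarefree D.natAbs := Int.squarefree_natAbs.2 hD
  have hDn1 : D.natAbs ≠ 1 := by
    intro h
    rcases Int.natAbs_eq D with h4 | h4
    · rw [h] at h4
      exact hD1 (by exact_mod_cast h4)
    · rw [h] at h4
      rw [h4] at hD4
      norm_num at hD4
  have h4 := dl_third D.natAbs hsf hodd hDn1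
  set t : ℝ := ((TT T (zf k T)).card : ℝ) with ht
  have ht0 : 0 ≤ t := Nat.cast_nonneg _
  have h5 : 1 / 6 * t ≤ (PR n T (zf k T)).card := by
    have := (abs_le.1 h3).1
    nlinarith
  have h6 : ((PR n T (zf k T)).card : ℝ) ≤ cntP n x := by
    exact_mod_cast (PR_le n T _).trans (cntP_mono n hTx)
  have hTr : (2 : ℝ) < T := by exact_mod_cast hT2
  have hxr : (x : ℝ) < 2 * T := by exact_mod_cast hxT
  have hTxr : (T : ℝ) ≤ x := by exact_mod_cast hTx
  have hlT : 0 < Real.log T := Real.log_pos (by linarith)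
  have hlTx : Real.log T ≤ Real.log x := Real.log_le_log (by linarith) hTxr
  have h7 : (x : ℝ) / (12 * (Real.log x) ^ 2) ≤ 1 / 6 * ((T : ℝ) / (Real.log T) ^ 2) := by
    have h8 : 1 / 6 * ((T : ℝ) / (Real.log T) ^ 2) = (2 * T) / (12 * (Real.log T) ^ 2) := by
      field_simp
      norm_num
    rw [h8]
    apply div_le_div₀ (by linarith) hxr.le (by positivity)
    apply mul_le_mul_of_nonneg_left _ (by norm_num)
    exact pow_le_pow_left₀ hlT.le hlTx 2
  linarith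

/-- **all `x` at once** -/
theorem all_struct (η : ℝ) (hη : 0 < η) (A : ℕ) : ∃ K₁ : ℕ, ∀ K : ℕ, K₁ ≤ K → ∀ᶠ N : ℕ in atTop,
    ∃ (E : Finset ℤ) (B : Finset ℕ), (E.card : ℝ) ≤ (Real.log N) ^ K ∧
      (∀ b ∈ B, Real.log (Real.log N) < b) ∧
      (∀ y : ℕ, y ≤ N → ((B.filter (fun b => b ≤ y)).card : ℝ) ≤ (Real.log N) ^ K * (y : ℝ) ^ η) ∧
      ∀ n D m : ℤ, n = D * m ^ 2 → n ≠ 0 → n.natAbs ≤ N → Squarefree D → D % 4 = 1 → D ≠ 1 → n ∉ E →
        D.natAbs ∉ B → ∀ x : ℕ, (Real.log N) ^ K ≤ x → (x : ℝ) ≤ Real.exp ((Real.log N) ^ A) →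
          (x : ℝ) / (12 * (Real.log x) ^ 2) ≤ cntP n x := by
  classical
  obtain ⟨k, hk, h⟩ := one_x (1 / 6) (by norm_num)
  obtain ⟨K₀, hK₀, hS⟩ := h η hη
  refine ⟨K₀ + A + 3, fun K hK => ?_⟩
  have hlogtop : Tendsto (fun N : ℕ => Real.log (N : ℝ)) atTop atTop :=
    Real.tendsto_log_atTop.comp tendsto_natCast_atTop_atTop
  filter_upwards [hS, eventually_ge_atTop 3, hlogtop.eventually_ge_atTop 4] with N hN hN3' hl4
  have hNr : (3 : ℝ) ≤ N := by exact_mod_cast hN3'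
  have hN0 : (0 : ℝ) < N := by linarith
  have hNone : (1 : ℝ) ≤ N := by linarith
  set l := Real.log N with hl
  have hl0 : 0 < l := by linarith
  have hl1 : 1 ≤ l := by linarith
  -- the dyadic indices
  set Y : ℕ := ⌊Real.exp (l ^ A)⌋₊ with hY
  set J : Finset ℕ := range (Nat.log 2 Y + 1) with hJ
  have hY1 : 1 ≤ Y := by
    rw [hY, Nat.one_le_floor_iff]
    exact Real.one_le_exp (by positivity)
  have hJc : (J.card : ℝ) ≤ 3 * l ^ A := by
    rw [hJ, card_range]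
    push_cast
    have h1 := log2_real Y hY1
    have h2 : Real.log Y ≤ l ^ A := by
      have h3 : (Y : ℝ) ≤ Real.exp (l ^ A) := Nat.floor_le (Real.exp_pos _).le
      have h4 := Real.log_le_log (by exact_mod_cast hY1) h3
      rwa [Real.log_exp] at h4
    have h3 : 1 ≤ l ^ A := one_le_pow₀ hl1
    linarith
  -- facts for `x` in the range
  have hrange : ∀ x : ℕ, l ^ K ≤ x → (x : ℝ) ≤ Real.exp (l ^ A) →
      4 ≤ x ∧ Nat.log 2 x ∈ J ∧ l ^ K₀ ≤ ((2 ^ Nat.log 2 x : ℕ) : ℝ) := by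
    intro x hx1 hx2
    have h1 : 2 * l ^ K₀ ≤ x := by
      calc 2 * l ^ K₀ ≤ l * l ^ K₀ := mul_le_mul_of_nonneg_right (by linarith) (by positivity)
        _ = l ^ (K₀ + 1) := by ring
        _ ≤ l ^ K := pow_le_pow_right₀ hl1 (by omega)
        _ ≤ x := hx1
    have h4x : (4 : ℝ) ≤ x := by
      calc (4 : ℝ) ≤ l := hl4
        _ = l ^ 1 := (pow_one _).symm
        _ ≤ l ^ K := pow_le_pow_right₀ hl1 (by omega)
        _ ≤ x := hx1
    have h4x' : 4 ≤ x := by exact_mod_cast h4x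
    refine ⟨h4x', ?_, ?_⟩
    · rw [hJ, mem_range]
      have h2 : x ≤ Y := Nat.le_floor hx2
      have := Nat.log_mono_right (b := 2) h2
      omega
    · have h2 := Nat.lt_pow_succ_log_self (b := 2) (by norm_num) x
      rw [pow_succ] at h2
      have h3 : (x : ℝ) < ((2 ^ Nat.log 2 x : ℕ) : ℝ) * 2 := by exact_mod_cast h2
      linarith
  have hex : ∀ j : ℕ, ∃ (E : Finset ℤ) (B : Finset ℕ), l ^ K₀ ≤ ((2 ^ j : ℕ) : ℝ) →
      ((2 ^ j : ℕ) : ℝ) / (Real.log ((2 ^ j : ℕ) : ℝ)) ^ 2 ≤ (TT (2 ^ j) (zf k (2 ^ j))).card ∧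
      (E.card : ℝ) ≤ l ^ K₀ ∧
      (∀ b ∈ B, Real.log ((2 ^ j : ℕ) : ℝ) < b) ∧
      (∀ y : ℕ, y ≤ N → ((B.filter (fun b => b ≤ y)).card : ℝ) ≤ (y : ℝ) ^ η) ∧
      ∀ n D m : ℤ, n = D * m ^ 2 → n ≠ 0 → n.natAbs ≤ N → Squarefree D → D % 4 = 1 → n ∉ E →
        D.natAbs ∉ B →
          |((PR n (2 ^ j) (zf k (2 ^ j))).card : ℝ) - dl D.natAbs * (TT (2 ^ j) (zf k (2 ^ j))).card| ≤
            1 / 6 * (TT (2 ^ j) (zf k (2 ^ j))).card := by
    intro j
    by_cases hj : l ^ K₀ ≤ ((2 ^ j : ℕ) : ℝ)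
    · obtain ⟨h1, E, B, h2, h3, h4, h5⟩ := hN (2 ^ j) hj
      exact ⟨E, B, fun _ => ⟨h1, h2, h3, h4, h5⟩⟩
    · exact ⟨∅, ∅, fun h => absurd h hj⟩
  choose E B hEB using hex
  set J' : Finset ℕ := J.filter (fun j => l ^ K₀ ≤ ((2 ^ j : ℕ) : ℝ)) with hJ'
  have hJ'c : (J'.card : ℝ) ≤ l ^ (A + 1) := by
    have h1 : (J'.card : ℝ) ≤ J.card := by exact_mod_cast card_le_card (filter_subset _ _)
    have h2 : 3 * l ^ A ≤ l * l ^ A := mul_le_mul_of_nonneg_right (by linarith) (by positivity)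
    calc (J'.card : ℝ) ≤ 3 * l ^ A := h1.trans hJc
      _ ≤ l * l ^ A := h2
      _ = l ^ (A + 1) := by ring
  refine ⟨J'.biUnion E, J'.biUnion B, ?_, ?_, ?_, ?_⟩
  · calc (((J'.biUnion E).card : ℕ) : ℝ) ≤ ∑ j ∈ J', ((E j).card : ℝ) := by
          exact_mod_cast card_biUnion_le
      _ ≤ ∑ _j ∈ J', l ^ K₀ := by
          apply Finset.sum_le_sum
          intro j hj
          rw [hJ', mem_filter] at hj
          exact (hEB j hj.2).2.1
      _ = (J'.card : ℝ) * l ^ K₀ := by rw [sum_const, nsmul_eq_mul]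
      _ ≤ l ^ (A + 1) * l ^ K₀ := mul_le_mul_of_nonneg_right hJ'c (by positivity)
      _ = l ^ (A + 1 + K₀) := by rw [← pow_add]
      _ ≤ l ^ K := pow_le_pow_right₀ hl1 (by omega)
  · intro b hb
    rw [mem_biUnion] at hb
    obtain ⟨j, hj, hbj⟩ := hb
    rw [hJ', mem_filter] at hj
    obtain ⟨-, -, h3, -⟩ := hEB j hj.2
    have h6 := h3 b hbj
    have h7 : Real.log l ≤ Real.log ((2 ^ j : ℕ) : ℝ) := by
      apply Real.log_le_log hl0
      refine le_trans ?_ hj.2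
      calc l = l ^ 1 := (pow_one _).symm
        _ ≤ l ^ K₀ := pow_le_pow_right₀ hl1 hK₀
    linarith
  · intro y hy
    have h1 : (J'.biUnion B).filter (fun b => b ≤ y) ⊆
        J'.biUnion (fun j => (B j).filter (fun b => b ≤ y)) := by
      intro b hb
      rw [mem_filter, mem_biUnion] at hb
      obtain ⟨⟨j, hj, hbj⟩, hby⟩ := hb
      rw [mem_biUnion]
      exact ⟨j, hj, mem_filter.2 ⟨hbj, hby⟩⟩
    calc ((((J'.biUnion B).filter (fun b => b ≤ y)).card : ℕ) : ℝ)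
        ≤ ∑ j ∈ J', (((B j).filter (fun b => b ≤ y)).card : ℝ) := by
          exact_mod_cast (card_le_card h1).trans card_biUnion_le
      _ ≤ ∑ _j ∈ J', (y : ℝ) ^ η := by
          apply Finset.sum_le_sum
          intro j hj
          rw [hJ', mem_filter] at hj
          exact (hEB j hj.2).2.2.2.1 y hy
      _ = (J'.card : ℝ) * (y : ℝ) ^ η := by rw [sum_const, nsmul_eq_mul]
      _ ≤ l ^ (A + 1) * (y : ℝ) ^ η := mul_le_mul_of_nonneg_right hJ'c (by positivity)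
      _ ≤ l ^ K * (y : ℝ) ^ η := by
          apply mul_le_mul_of_nonneg_right _ (by positivity)
          exact pow_le_pow_right₀ hl1 (by omega)
  · intro n D m hn hn0 hnN hD hD4 hD1 hnE hDB x hx1 hx2
    obtain ⟨hx4, hxJ, hxK⟩ := hrange x hx1 hx2
    have hmem : Nat.log 2 x ∈ J' := by rw [hJ', mem_filter]; exact ⟨hxJ, hxK⟩
    obtain ⟨g1, -, -, -, g4⟩ := hEB (Nat.log 2 x) hxK
    exact lower k N x hx4 n D m hn hn0 hnN hD hD4 hD1 (2 ^ Nat.log 2 x) rfl _ _ g1 g4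
      (fun h => hnE (mem_biUnion.2 ⟨_, hmem, h⟩)) (fun h => hDB (mem_biUnion.2 ⟨_, hmem, h⟩))

/-- the squarefree integers -/
theorem all_sqfree (η : ℝ) (hη : 0 < η) (A : ℕ) : ∃ K₁ : ℕ, ∀ K : ℕ, K₁ ≤ K → ∀ᶠ N : ℕ in atTop,
    ∀ S : Finset ℤ, (∀ n ∈ S, n ∈ Icc (-(N : ℤ)) N ∧ Squarefree n ∧ n % 4 = 1 ∧ n ≠ 1 ∧ ∃ x : ℕ,
      (Real.log N) ^ K ≤ x ∧ (x : ℝ) ≤ Real.exp ((Real.log N) ^ A) ∧
        (cntP n x : ℝ) < (x : ℝ) / (12 * (Real.log x) ^ 2)) → (S.card : ℝ) ≤ (N : ℝ) ^ η := by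
  classical
  obtain ⟨K₁, h⟩ := all_struct (η / 2) (by positivity) A
  refine ⟨K₁, fun K hK => ?_⟩
  have e3 := ev_log 3 (η / 2) (by positivity) K
  filter_upwards [h K hK, e3, eventually_ge_atTop 1,
    (Real.tendsto_log_atTop.comp tendsto_natCast_atTop_atTop).eventually_ge_atTop (1 : ℝ)]
    with N hN he hN1 hl1
  simp only [Function.comp_apply] at hl1
  obtain ⟨E, B, h1, -, h3, h4⟩ := hN
  intro S hS
  have hN0 : (0 : ℝ) < N := by exact_mod_cast hN1
  have hNone : (1 : ℝ) ≤ N := by exact_mod_cast hN1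
  set Bz : Finset ℤ := (Icc (-(N : ℤ)) N).filter (fun n : ℤ => n.natAbs ∈ B) with hBz
  have hsub : S ⊆ E ∪ Bz := by
    intro n hn
    obtain ⟨hnN, hsf, hn4, hn1, x, hx1, hx2, hlt⟩ := hS n hn
    rw [mem_union]
    by_contra hcon
    push Not at hcon
    obtain ⟨hE1, hB1⟩ := hcon
    have hnN' := mem_Icc.1 hnN
    have hB2 : n.natAbs ∉ B := by
      intro h
      apply hB1
      rw [hBz]
      exact mem_filter.2 ⟨hnN, h⟩
    have := h4 n n 1 (by ring) hsf.ne_zero (by omega) hsf hn4 hn1 hE1 hB2 x hx1 hx2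
    linarith
  have hBzc : (Bz.card : ℝ) ≤ 2 * ((B.filter (fun b => b ≤ N)).card : ℝ) := by
    have h1 : Bz ⊆ (B.filter (fun b => b ≤ N)).image (fun b : ℕ => (b : ℤ)) ∪
        (B.filter (fun b => b ≤ N)).image (fun b : ℕ => -(b : ℤ)) := by
      intro n hn
      rw [hBz] at hn
      obtain ⟨h2, h3⟩ := mem_filter.1 hn
      rw [mem_Icc] at h2
      have h4 : n.natAbs ∈ B.filter (fun b => b ≤ N) := by
        rw [mem_filter]
        exact ⟨h3, by omega⟩
      rw [mem_union, mem_image, mem_image]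
      rcases Int.natAbs_eq n with h5 | h5
      · left
        exact ⟨n.natAbs, h4, h5.symm⟩
      · right
        exact ⟨n.natAbs, h4, h5.symm⟩
    have h2 := (card_le_card h1).trans (card_union_le _ _)
    have h3 : Bz.card ≤ 2 * (B.filter (fun b => b ≤ N)).card := by
      have h4 := card_image_le (s := B.filter (fun b => b ≤ N)) (f := fun b : ℕ => (b : ℤ))
      have h5 := card_image_le (s := B.filter (fun b => b ≤ N)) (f := fun b : ℕ => -(b : ℤ))
      omega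
    exact_mod_cast h3
  have h5 := h3 N le_rfl
  have h6 : (S.card : ℝ) ≤ (E.card : ℝ) + Bz.card := by
    exact_mod_cast (card_le_card hsub).trans (card_union_le _ _)
  have h7 : 1 ≤ (N : ℝ) ^ (η / 2) := Real.one_le_rpow hNone (by positivity)
  set l := Real.log N with hl
  have h8 : l ^ K ≤ l ^ K * (N : ℝ) ^ (η / 2) := le_mul_of_one_le_right (by positivity) h7
  calc (S.card : ℝ) ≤ 3 * l ^ K * (N : ℝ) ^ (η / 2) := by linarith
    _ ≤ (N : ℝ) ^ (η / 2) * (N : ℝ) ^ (η / 2) := mul_le_mul_of_nonneg_right he (by positivity)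
    _ = (N : ℝ) ^ η := by
      rw [← Real.rpow_add hN0]
      congr 1
      ring

/-- the structure theorem is monotone in the exponent -/
theorem one_x' (ε : ℝ) (hε : 0 < ε) : ∃ k : ℕ, 1 ≤ k ∧ ∀ η : ℝ, 0 < η → ∃ K₁ : ℕ, ∀ K : ℕ, K₁ ≤ K →
    ∀ᶠ N : ℕ in atTop, ∀ x : ℕ, (Real.log N) ^ K ≤ x → Str ε η k K N x := by
  obtain ⟨k, hk, h⟩ := one_x ε hε
  refine ⟨k, hk, fun η hη => ?_⟩
  obtain ⟨K₁, -, h1⟩ := h η hη
  refine ⟨K₁, fun K hK => ?_⟩
  filter_upwards [h1, (Real.tendsto_log_atTop.comp tendsto_natCast_atTop_atTop).eventually_ge_atTop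
    (1 : ℝ)] with N hN hl1 x hx
  simp only [Function.comp_apply] at hl1
  obtain ⟨h2, E, B, h3, h4⟩ := hN x ((pow_le_pow_right₀ hl1 hK).trans hx)
  exact ⟨h2, E, B, h3.trans (pow_le_pow_right₀ hl1 hK), h4⟩

end Pool.Agent.N430.LK
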