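import Pool.Agent.Y855.A14

set_option autoImplicit false

/-! Primitive roots modulo the sifted primes: the bad primes of an integer of arbitrary size. -/

namespace Pool.Agent.N430.LK

open Finset
open Pool.Agent.Y855

open Classical in
/-- the primes `p` of `TT x z`, `p ∤ n`, modulo which `n` is an `l`-th power for an odd prime `l ∣ p - 1` -/
noncomputable def BadP (n : ℤ) (x z : ℕ) : Finset ℕ :=
  (TT x z).filter (fun p => ¬ (p : ℤ) ∣ n ∧ ∃ l : ℕ, l.Prime ∧ 3 ≤ l ∧ l ∣ p - 1 ∧
    (n : ZMod p) ^ ((p - 1) / l) = 1)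

lemma TT_prime {x z p : ℕ} (hp : p ∈ TT x z) : p.Prime := by
  unfold TT at hp
  exact (mem_filter.1 hp).2.1

lemma TT_le {x z p : ℕ} (hp : p ∈ TT x z) : p ≤ x := by
  unfold TT at hp
  exact (mem_Icc.1 (mem_filter.1 hp).1).2

lemma mem_pf {n : ℤ} (hn : n ≠ 0) {p : ℕ} (hp : p.Prime) (h : (p : ℤ) ∣ n) :
    p ∈ n.natAbs.primeFactors := by
  rw [Nat.mem_primeFactors]
  exact ⟨hp, Int.natCast_dvd.1 h, Int.natAbs_ne_zero.2 hn⟩

theorem PR_close (n D k : ℤ) (hn : n = D * k ^ 2) (hD : D % 4 = 1) (hn0 : n ≠ 0) (x z : ℕ) :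
    |((PR n x z).card : ℝ) - (TQ x z D.natAbs).card| ≤
      1 + (n.natAbs.primeFactors.card : ℝ) + (BadP n x z).card := by
  classical
  have h1 : PR n x z ⊆ TQ x z D.natAbs ∪ ({2} ∪ n.natAbs.primeFactors) := by
    intro p hp
    unfold PR at hp
    rw [mem_filter] at hp
    have hpp := TT_prime hp.1
    rw [mem_union, mem_union, mem_singleton]
    by_cases h2 : p = 2
    · right; left; exact h2
    · by_cases h : (p : ℤ) ∣ n
      · right; right; exact mem_pf hn0 hpp h
      · left
        unfold TQ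
        rw [mem_filter]
        have h3 := hpp.two_le
        exact ⟨hp.1, ((order_iff n D k hn hD p hpp (by omega) h).1 hp.2).1⟩
  have h2 : TQ x z D.natAbs ⊆ PR n x z ∪ (({2} ∪ n.natAbs.primeFactors) ∪ BadP n x z) := by
    intro p hp
    unfold TQ at hp
    rw [mem_filter] at hp
    have hpp := TT_prime hp.1
    rw [mem_union, mem_union, mem_union, mem_singleton]
    by_cases h2 : p = 2
    · right; left; left; exact h2
    · by_cases h : (p : ℤ) ∣ n
      · right; left; right; exact mem_pf hn0 hpp h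
      · have h3 := hpp.two_le
        by_cases hb : ∃ l : ℕ, l.Prime ∧ 3 ≤ l ∧ l ∣ p - 1 ∧ (n : ZMod p) ^ ((p - 1) / l) = 1
        · right; right
          unfold BadP
          rw [mem_filter]
          exact ⟨hp.1, h, hb⟩
        · left
          unfold PR
          rw [mem_filter]
          exact ⟨hp.1, (order_iff n D k hn hD p hpp (by omega) h).2 ⟨hp.2, hb⟩⟩
  have c0 : (({2} : Finset ℕ) ∪ n.natAbs.primeFactors).card ≤ 1 + n.natAbs.primeFactors.card := by
    refine (card_union_le _ _).trans ?_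
    rw [card_singleton]
  have c1 := (card_le_card h1).trans (card_union_le _ _)
  have c2 := (card_le_card h2).trans ((card_union_le _ _).trans
    (Nat.add_le_add_left (card_union_le _ _) _))
  have c1' : ((PR n x z).card : ℝ) ≤ (TQ x z D.natAbs).card + (1 + n.natAbs.primeFactors.card) := by
    have : (PR n x z).card ≤ (TQ x z D.natAbs).card + (1 + n.natAbs.primeFactors.card) := by omega
    exact_mod_cast this
  have c2' : ((TQ x z D.natAbs).card : ℝ) ≤ (PR n x z).card +
      ((1 + n.natAbs.primeFactors.card) + (BadP n x z).card) := by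
    have : (TQ x z D.natAbs).card ≤ (PR n x z).card +
      ((1 + n.natAbs.primeFactors.card) + (BadP n x z).card) := by omega
    exact_mod_cast this
  have : (0 : ℝ) ≤ (BadP n x z).card := Nat.cast_nonneg _
  rw [abs_le]
  constructor <;> linarith

/-- the sum of the numbers of bad primes over an independent set of integers of arbitrary size -/
theorem bad_sum (M : Finset ℤ) (x z R : ℕ) (hx : 3 ≤ x) (hz : 2 ≤ z) (hR : x ^ 2 ≤ z ^ R)
    (h0 : ∀ n ∈ M, n ≠ 0) :
    ∑ n ∈ M, ((BadP n x z).card : ℝ) ≤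
      (TT x z).card * (2 * (Real.log x / Real.log z) ^ 2) +
      M.card * (∑ r ∈ Icc 2 R, ((Exc x r M).card : ℝ) + ∑ n ∈ M, (n.natAbs.primeFactors.card : ℝ)) := by
  classical
  set EE : Finset ℕ := (Icc 2 R).biUnion (fun r => Exc x r M) with hEE
  set DD : Finset ℕ := M.biUnion (fun n => n.natAbs.primeFactors) with hDD
  have hdc : ∑ n ∈ M, ((BadP n x z).card : ℝ) = ∑ p ∈ TT x z,
      ((M.filter (fun n : ℤ => ¬ (p : ℤ) ∣ n ∧ ∃ l : ℕ, l.Prime ∧ 3 ≤ l ∧ l ∣ p - 1 ∧
        (n : ZMod p) ^ ((p - 1) / l) = 1)).card : ℝ) := by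
    unfold BadP
    simp only [card_filter]
    push_cast
    rw [sum_comm]
  rw [hdc]
  have hzr : (2 : ℝ) ≤ z := by exact_mod_cast hz
  have hlz : 0 < Real.log z := Real.log_pos (by linarith)
  have hlx : 0 ≤ Real.log x := Real.log_natCast_nonneg x
  have hpt : ∀ p ∈ TT x z, ((M.filter (fun n : ℤ => ¬ (p : ℤ) ∣ n ∧ ∃ l : ℕ, l.Prime ∧ 3 ≤ l ∧
        l ∣ p - 1 ∧ (n : ZMod p) ^ ((p - 1) / l) = 1)).card : ℝ) ≤
      2 * (Real.log x / Real.log z) ^ 2 + M.card * ((if p ∈ EE then (1 : ℝ) else 0) +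
        (if p ∈ DD then (1 : ℝ) else 0)) := by
    intro p hp
    have hpp := TT_prime hp
    have hsum0 : 0 ≤ 2 * (Real.log x / Real.log z) ^ 2 := by positivity
    have htriv : ((M.filter (fun n : ℤ => ¬ (p : ℤ) ∣ n ∧ ∃ l : ℕ, l.Prime ∧ 3 ≤ l ∧
        l ∣ p - 1 ∧ (n : ZMod p) ^ ((p - 1) / l) = 1)).card : ℝ) ≤ M.card := by
      exact_mod_cast card_filter_le _ _
    by_cases hpE : p ∈ EE
    · rw [if_pos hpE]
      have : 0 ≤ (M.card : ℝ) * (if p ∈ DD then (1 : ℝ) else 0) := by
        split_ifs <;> simp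
      linarith
    · by_cases hpD : p ∈ DD
      · rw [if_pos hpD]
        have : 0 ≤ (M.card : ℝ) * (if p ∈ EE then (1 : ℝ) else 0) := by
          split_ifs <;> simp
        linarith
      · rw [if_neg hpE, if_neg hpD, add_zero, mul_zero, add_zero]
        have hp' := hp
        unfold TT at hp'
        rw [mem_filter, mem_Icc] at hp'
        have hnd : ∀ n ∈ M, ¬ (p : ℤ) ∣ n := by
          intro n hn h
          exact hpD (mem_biUnion.2 ⟨n, hn, mem_pf (h0 n hn) hpp h⟩)
        have hEr : ∀ r ∈ Icc 2 R, p ∉ Exc x r M := by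
          intro r hr h
          exact hpE (mem_biUnion.2 ⟨r, hr, h⟩)
        have hsub : M.filter (fun n : ℤ => ¬ (p : ℤ) ∣ n ∧ ∃ l : ℕ, l.Prime ∧ 3 ≤ l ∧ l ∣ p - 1 ∧
            (n : ZMod p) ^ ((p - 1) / l) = 1) ⊆
            (LF z p).biUnion (fun l => M.filter (fun n : ℤ => (n : ZMod p) ^ ((p - 1) / l) = 1)) := by
          intro n hn
          rw [mem_filter] at hn
          obtain ⟨hnM, _, l, hl, hl3, hlp, hln⟩ := hn
          rw [mem_biUnion]
          refine ⟨l, ?_, mem_filter.2 ⟨hnM, hln⟩⟩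
          unfold LF
          rw [mem_filter, Nat.mem_primeFactors]
          refine ⟨⟨hl, hlp, by have := hpp.two_le; omega⟩, ?_⟩
          by_contra hcon
          exact hp'.2.2 l (mem_OP.2 ⟨hl, hl3, by omega⟩) hlp
        have h1 : ((M.filter (fun n : ℤ => ¬ (p : ℤ) ∣ n ∧ ∃ l : ℕ, l.Prime ∧ 3 ≤ l ∧ l ∣ p - 1 ∧
            (n : ZMod p) ^ ((p - 1) / l) = 1)).card : ℝ) ≤
            ∑ l ∈ LF z p, ((M.filter (fun n : ℤ => (n : ZMod p) ^ ((p - 1) / l) = 1)).card : ℝ) := by
          exact_mod_cast (card_le_card hsub).trans card_biUnion_le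
        refine h1.trans ?_
        have h2 : ∀ l ∈ LF z p, ((M.filter (fun n : ℤ => (n : ZMod p) ^ ((p - 1) / l) = 1)).card : ℝ) ≤
            2 * (Real.log x / Real.log z) := by
          intro l hl
          unfold LF at hl
          rw [mem_filter] at hl
          have h3 := few_powers M x z R hx hz hR p hp'.1.2 hpp hnd hEr l
            (Nat.prime_of_mem_primeFactors hl.1) (Nat.dvd_of_mem_primeFactors hl.1) hl.2
          refine h3.trans ?_
          rw [mul_div_assoc]
          apply mul_le_mul_of_nonneg_left _ (by norm_num)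
          apply div_le_div_of_nonneg_left hlx hlz
          exact Real.log_le_log (by linarith) (by exact_mod_cast hl.2.le)
        refine (Finset.sum_le_sum h2).trans ?_
        rw [sum_const, nsmul_eq_mul]
        have h4 := LF_card x z p hz hp
        have h5 : 0 ≤ Real.log x / Real.log z := div_nonneg hlx hlz.le
        calc ((LF z p).card : ℝ) * (2 * (Real.log x / Real.log z))
            ≤ (Real.log x / Real.log z) * (2 * (Real.log x / Real.log z)) :=
              mul_le_mul_of_nonneg_right h4 (by positivity)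
          _ = 2 * (Real.log x / Real.log z) ^ 2 := by ring
  refine (sum_le_sum hpt).trans ?_
  rw [sum_add_distrib, sum_const, nsmul_eq_mul, ← mul_sum, sum_add_distrib]
  apply add_le_add le_rfl
  apply mul_le_mul_of_nonneg_left _ (Nat.cast_nonneg _)
  apply add_le_add
  · have h2 : ∑ p ∈ TT x z, (if p ∈ EE then (1 : ℝ) else 0) ≤ (EE.card : ℝ) := by
      rw [← sum_filter, sum_const, nsmul_eq_mul, mul_one]
      exact_mod_cast card_le_card (by
        intro p hp
        exact (mem_filter.1 hp).2)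
    refine h2.trans ?_
    rw [hEE]
    exact_mod_cast card_biUnion_le
  · have h2 : ∑ p ∈ TT x z, (if p ∈ DD then (1 : ℝ) else 0) ≤ (DD.card : ℝ) := by
      rw [← sum_filter, sum_const, nsmul_eq_mul, mul_one]
      exact_mod_cast card_le_card (by
        intro p hp
        exact (mem_filter.1 hp).2)
    refine h2.trans ?_
    rw [hDD]
    exact_mod_cast card_biUnion_le

end Pool.Agent.N430.LK
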