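import Pool.Agent.N430.LK.Local
import Pool.Agent.N430.LK.Count
import Pool.Agent.N430.LK.Excs
import Pool.Agent.N430.PS.Weak

set_option autoImplicit false

/-! For every `x` the integers with many bad primes form a set of bounded multiplicative rank. -/

namespace Pool.Agent.N430.LK

open Finset Filter
open Pool.Agent.Y855

lemma ev_log (C δ : ℝ) (hδ : 0 < δ) (j : ℕ) :
    ∀ᶠ x : ℕ in atTop, C * (Real.log x) ^ j ≤ (x : ℝ) ^ δ := by
  have h1 := (isLittleO_log_rpow_rpow_atTop (j : ℝ) hδ).def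
    (show (0 : ℝ) < 1 / (|C| + 1) by positivity)
  have h2 : ∀ᶠ x : ℕ in atTop, ‖Real.log (x : ℝ) ^ (j : ℝ)‖ ≤ 1 / (|C| + 1) * ‖(x : ℝ) ^ δ‖ :=
    tendsto_natCast_atTop_atTop.eventually h1
  filter_upwards [h2, eventually_ge_atTop 1] with x hx hx1
  have hx0 : (0 : ℝ) < x := by exact_mod_cast hx1
  have hl : 0 ≤ Real.log (x : ℝ) := Real.log_natCast_nonneg x
  rw [Real.norm_eq_abs, Real.norm_eq_abs, Real.rpow_natCast, abs_of_nonneg (pow_nonneg hl j),
    abs_of_pos (Real.rpow_pos_of_pos hx0 δ)] at hx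
  have h3 : (|C| + 1) * (Real.log x) ^ j ≤ (x : ℝ) ^ δ := by
    have h4 := mul_le_mul_of_nonneg_left hx (show (0 : ℝ) ≤ |C| + 1 by positivity)
    have h5 : (|C| + 1) * (1 / (|C| + 1) * (x : ℝ) ^ δ) = (x : ℝ) ^ δ := by
      have : (|C| + 1) ≠ 0 := by positivity
      field_simp
    linarith
  have h6 : C * (Real.log x) ^ j ≤ (|C| + 1) * (Real.log x) ^ j := by
    apply mul_le_mul_of_nonneg_right _ (pow_nonneg hl j)
    linarith [le_abs_self C]
  linarith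

/-- the sifting limit -/
noncomputable def zf (k x : ℕ) : ℕ := ⌊(x : ℝ) ^ (1 / (k : ℝ))⌋₊

theorem z_facts (k x : ℕ) (hk : 1 ≤ k) (hx : 4 * (k : ℝ) ^ 2 ≤ Real.log x) :
    2 ≤ zf k x ∧ ((zf k x : ℕ) : ℝ) ^ k ≤ x ∧ √(Real.log x) ≤ Real.log (zf k x) ∧
    Real.log x ≤ 2 * k * Real.log (zf k x) ∧ x ^ 2 ≤ (zf k x) ^ (4 * k) ∧ 3 ≤ x := by
  have hk1 : (1 : ℝ) ≤ k := by exact_mod_cast hk
  have hk0 : (0 : ℝ) < k := by linarith
  have hL : 4 ≤ Real.log x := by nlinarith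
  have hx0 : (0 : ℝ) < x := by
    by_contra h
    have h1 : (x : ℝ) = 0 := le_antisymm (not_lt.1 h) (Nat.cast_nonneg _)
    rw [h1, Real.log_zero] at hL
    linarith
  have hx1 : (1 : ℝ) ≤ x := by exact_mod_cast (by exact_mod_cast hx0 : 0 < x)
  set u : ℝ := (x : ℝ) ^ (1 / (2 * (k : ℝ))) with hu
  have hlu : Real.log u = Real.log x / (2 * k) := by
    rw [hu, Real.log_rpow hx0]
    ring
  have hlu2 : 2 ≤ Real.log u := by
    rw [hlu, le_div_iff₀ (by positivity)]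
    nlinarith
  have hu0 : 0 < u := by positivity
  have hu2 : 2 ≤ u := by
    have h1 : Real.log 2 ≤ Real.log u := by
      have := Real.log_two_lt_d9
      linarith
    exact (Real.log_le_log_iff (by norm_num) hu0).1 h1
  have huu : (x : ℝ) ^ (1 / (k : ℝ)) = u ^ 2 := by
    rw [hu, ← Real.rpow_natCast, ← Real.rpow_mul hx0.le]
    congr 1
    field_simp
    norm_num
  have hfl := Nat.lt_floor_add_one ((x : ℝ) ^ (1 / (k : ℝ)))
  have hzu : u ≤ ((zf k x : ℕ) : ℝ) := by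
    unfold zf
    rw [huu] at hfl ⊢
    nlinarith
  have hz2 : 2 ≤ zf k x := by
    have : (2 : ℝ) ≤ ((zf k x : ℕ) : ℝ) := hu2.trans hzu
    exact_mod_cast this
  have hlz : Real.log u ≤ Real.log (zf k x) := Real.log_le_log hu0 hzu
  refine ⟨hz2, ?_, ?_, ?_, ?_, ?_⟩
  · have h1 : ((zf k x : ℕ) : ℝ) ≤ (x : ℝ) ^ (1 / (k : ℝ)) := Nat.floor_le (by positivity)
    calc ((zf k x : ℕ) : ℝ) ^ k ≤ ((x : ℝ) ^ (1 / (k : ℝ))) ^ k :=
          pow_le_pow_left₀ (Nat.cast_nonneg _) h1 k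
      _ = x := by
        rw [← Real.rpow_natCast, ← Real.rpow_mul hx0.le, one_div, inv_mul_cancel₀ hk0.ne',
          Real.rpow_one]
  · refine le_trans ?_ hlz
    rw [hlu, Real.sqrt_le_left (by positivity), div_pow, le_div_iff₀ (by positivity)]
    have h1 : (2 * (k : ℝ)) ^ 2 = 4 * (k : ℝ) ^ 2 := by ring
    rw [h1]
    nlinarith
  · rw [hlu, div_le_iff₀ (by positivity)] at hlz
    linarith
  · have h1 : (x : ℝ) ^ 2 = u ^ (4 * k) := by
      rw [hu, ← Real.rpow_natCast, ← Real.rpow_natCast, ← Real.rpow_mul hx0.le]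
      congr 1
      push_cast
      field_simp
      norm_num
    have h2 : u ^ (4 * k) ≤ ((zf k x : ℕ) : ℝ) ^ (4 * k) := pow_le_pow_left₀ hu0.le hzu _
    rw [← h1] at h2
    exact_mod_cast h2
  · by_contra h
    have h1 : x ≤ 2 := by omega
    have h2 : (x : ℝ) ≤ 2 := by exact_mod_cast h1
    have h3 := Real.log_le_log hx0 h2
    have := Real.log_two_lt_d9
    linarith

open Classical in
/-- the integers with many bad primes -/
noncomputable def EX (ε : ℝ) (k x N : ℕ) : Finset ℤ :=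
  (Icc (-(N : ℤ)) N).filter (fun n : ℤ => n ≠ 0 ∧
    ε * (TT x (zf k x)).card < ((BadP n x (zf k x)).card : ℝ))

theorem rank_set (ε : ℝ) (hε : 0 < ε) (k : ℕ) (hk : 1 ≤ k) :
    ∃ m : ℕ, ∀ᶠ x : ℕ in atTop, (x : ℝ) / (Real.log x) ^ 2 ≤ (TT x (zf k x)).card →
      ∀ N : ℕ, 1 ≤ N → Real.log N ≤ (x : ℝ) ^ (1 / (16 * (k : ℝ))) →
        (EX ε k x N).card ≤ 2 * (Nat.log 2 N + 1) ^ m := by
  classical
  have hk1 : (1 : ℝ) ≤ k := by exact_mod_cast hk
  have hk0 : (0 : ℝ) < k := by linarith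
  obtain ⟨m, hm⟩ : ∃ m : ℕ, 16 * (k : ℝ) ^ 2 / ε < m := exists_nat_gt _
  rw [div_lt_iff₀ hε] at hm
  set R : ℕ := 4 * k with hR
  set m₁ : ℕ := m + 1 with hm₁
  set C₁ : ℝ := R * (((m₁ : ℝ) + 1) ^ R * 5 ^ R * (4 * R)) with hC₁
  have hC₁0 : 0 ≤ C₁ := by positivity
  set C₂ : ℝ := 2 * C₁ + 2 * m₁ with hC₂
  have hC₂0 : 0 ≤ C₂ := by positivity
  refine ⟨m, ?_⟩
  have hev := ev_log (2 * C₂ / ε + 1) (3 / (16 * (k : ℝ))) (by positivity) 2
  have hev2 : ∀ᶠ x : ℕ in atTop, 4 * (k : ℝ) ^ 2 ≤ Real.log x :=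
    (Real.tendsto_log_atTop.comp tendsto_natCast_atTop_atTop).eventually_ge_atTop _
  filter_upwards [hev, hev2] with x hx1 hx2 hT N hN hlN
  obtain ⟨hz2, hzk, hzs, hzl, hzR, hx3⟩ := z_facts k x hk hx2
  set z := zf k x with hz
  have hx0 : (0 : ℝ) < x := by exact_mod_cast (by omega : 0 < x)
  have hxone : (1 : ℝ) ≤ x := by exact_mod_cast (by omega : 1 ≤ x)
  have hL0 : 0 < Real.log x := by nlinarith
  have hlz0 : 0 < Real.log z := by
    by_contra h
    have : 2 * k * Real.log z ≤ 0 := by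
      have h2 := not_lt.1 h
      nlinarith
    linarith
  have hlN0 : 0 ≤ Real.log N := Real.log_natCast_nonneg N
  apply count N m
  · intro n hn
    unfold EX at hn
    exact (mem_filter.1 hn).2.1
  · intro n hn
    unfold EX at hn
    have := mem_Icc.1 (mem_filter.1 hn).1
    omega
  · intro I hI hMI
    by_contra hcon
    obtain ⟨M, hMI2, hMc⟩ := exists_subset_card_eq (show m₁ ≤ I.card by omega)
    have hME : ∀ n ∈ M, n ∈ EX ε k x N := fun n hn => hI (hMI2 hn)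
    have hM0 : ∀ n ∈ M, n ≠ 0 := by
      intro n hn
      have := hME n hn
      unfold EX at this
      exact (mem_filter.1 this).2.1
    have hMN : ∀ n ∈ M, n.natAbs ≤ N := by
      intro n hn
      have := hME n hn
      unfold EX at this
      have := mem_Icc.1 (mem_filter.1 this).1
      omega
    have hMMI : MI M := hMI.subset hMI2
    have h1 := bad_sum M x z R hx3 hz2 hzR hM0
    have h2 := exc_sum R m₁ x N (by omega) hN M hM0 hMMI hMN hMc.le
    have h3 : ∑ n ∈ M, (n.natAbs.primeFactors.card : ℝ) ≤ m₁ * (2 * Real.log N) := by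
      calc ∑ n ∈ M, (n.natAbs.primeFactors.card : ℝ) ≤ ∑ _n ∈ M, 2 * Real.log N := by
            apply Finset.sum_le_sum
            intro n hn
            exact Pool.Agent.N430.PS.card_pf n.natAbs N (Int.natAbs_pos.2 (hM0 n hn)) (hMN n hn)
        _ = m₁ * (2 * Real.log N) := by rw [sum_const, hMc, nsmul_eq_mul]
    have h4 : (m₁ : ℝ) * (ε * (TT x z).card) ≤ ∑ n ∈ M, ((BadP n x z).card : ℝ) := by
      rw [← hMc, ← nsmul_eq_mul, ← sum_const]
      apply Finset.sum_le_sum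
      intro n hn
      have := hME n hn
      unfold EX at this
      exact (mem_filter.1 this).2.2.le
    have hratio : Real.log x / Real.log z ≤ 2 * k := by
      rw [div_le_iff₀ hlz0]
      exact hzl
    have hratio0 : 0 ≤ Real.log x / Real.log z := div_nonneg hL0.le hlz0.le
    have h5 : ((TT x z).card : ℝ) * (2 * (Real.log x / Real.log z) ^ 2) ≤
        (TT x z).card * (8 * (k : ℝ) ^ 2) := by
      apply mul_le_mul_of_nonneg_left _ (Nat.cast_nonneg _)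
      have := pow_le_pow_left₀ hratio0 hratio 2
      nlinarith
    -- the error terms
    set q : ℝ := (x : ℝ) ^ (1 / (16 * (k : ℝ))) with hq
    have hq1 : 1 ≤ q := Real.one_le_rpow hxone (by positivity)
    have hqR : (x : ℝ) ^ (1 - 1 / (R : ℝ)) * q = (x : ℝ) ^ (1 - 3 / (16 * (k : ℝ))) := by
      rw [hq, ← Real.rpow_add hx0]
      congr 1
      rw [hR]
      push_cast
      field_simp
      ring
    have hxR1 : 1 ≤ (x : ℝ) ^ (1 - 1 / (R : ℝ)) := by
      apply Real.one_le_rpow hxone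
      have h6 : (1 : ℝ) ≤ R := by rw [hR]; push_cast; linarith
      have : 1 / (R : ℝ) ≤ 1 := by
        rw [div_le_one (by linarith)]
        exact h6
      linarith
    have h6 : ∑ r ∈ Icc 2 R, ((Exc x r M).card : ℝ) ≤
        2 * C₁ * (x : ℝ) ^ (1 - 3 / (16 * (k : ℝ))) := by
      refine h2.trans ?_
      rw [← hqR]
      have h7 : Real.log N + 1 ≤ 2 * q := by linarith
      calc (R : ℝ) * (((m₁ : ℝ) + 1) ^ R * 5 ^ R * (4 * R) * (Real.log N + 1) *
            (x : ℝ) ^ (1 - 1 / (R : ℝ))) =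
            C₁ * ((Real.log N + 1) * (x : ℝ) ^ (1 - 1 / (R : ℝ))) := by rw [hC₁]; ring
        _ ≤ C₁ * ((2 * q) * (x : ℝ) ^ (1 - 1 / (R : ℝ))) := by
            apply mul_le_mul_of_nonneg_left _ hC₁0
            exact mul_le_mul_of_nonneg_right h7 (by positivity)
        _ = _ := by ring
    have h7 : (m₁ : ℝ) * (2 * Real.log N) ≤ 2 * m₁ * (x : ℝ) ^ (1 - 3 / (16 * (k : ℝ))) := by
      rw [← hqR]
      have h8 : Real.log N ≤ (x : ℝ) ^ (1 - 1 / (R : ℝ)) * q := by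
        calc Real.log N ≤ 1 * q := by linarith
          _ ≤ _ := mul_le_mul_of_nonneg_right hxR1 (by linarith)
      have h9 : (0 : ℝ) ≤ 2 * m₁ := by positivity
      calc (m₁ : ℝ) * (2 * Real.log N) = 2 * m₁ * Real.log N := by ring
        _ ≤ _ := mul_le_mul_of_nonneg_left h8 h9
    have hm₁0 : (0 : ℝ) < m₁ := by rw [hm₁]; positivity
    have h8 : (m₁ : ℝ) * (ε * (TT x z).card) ≤ (TT x z).card * (8 * (k : ℝ) ^ 2) +
        m₁ * (C₂ * (x : ℝ) ^ (1 - 3 / (16 * (k : ℝ)))) := by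
      have h9 : (M.card : ℝ) = m₁ := by exact_mod_cast hMc
      rw [h9] at h1
      have h10 : ∑ r ∈ Icc 2 R, ((Exc x r M).card : ℝ) + ∑ n ∈ M, (n.natAbs.primeFactors.card : ℝ) ≤
          C₂ * (x : ℝ) ^ (1 - 3 / (16 * (k : ℝ))) := by
        rw [hC₂, add_mul]
        linarith
      have h11 := mul_le_mul_of_nonneg_left h10 hm₁0.le
      linarith
    have hTpos : 0 < ((TT x z).card : ℝ) := lt_of_lt_of_le (by positivity) hT
    have h9 : ((TT x z).card : ℝ) * (8 * (k : ℝ) ^ 2) ≤ m₁ * (ε / 2 * (TT x z).card) := by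
      have h10 : 8 * (k : ℝ) ^ 2 ≤ m₁ * (ε / 2) := by
        have : (m : ℝ) ≤ m₁ := by rw [hm₁]; push_cast; linarith
        nlinarith
      nlinarith
    have h10 : (m₁ : ℝ) * (ε / 2 * (TT x z).card) ≤
        m₁ * (C₂ * (x : ℝ) ^ (1 - 3 / (16 * (k : ℝ)))) := by linarith
    have h11 : ε / 2 * (TT x z).card ≤ C₂ * (x : ℝ) ^ (1 - 3 / (16 * (k : ℝ))) :=
      le_of_mul_le_mul_left h10 hm₁0
    have h12 : ε / 2 * ((x : ℝ) / (Real.log x) ^ 2) ≤ C₂ * (x : ℝ) ^ (1 - 3 / (16 * (k : ℝ))) :=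
      (mul_le_mul_of_nonneg_left hT (by positivity)).trans h11
    have h13 : (x : ℝ) = (x : ℝ) ^ (1 - 3 / (16 * (k : ℝ))) * (x : ℝ) ^ (3 / (16 * (k : ℝ))) := by
      rw [← Real.rpow_add hx0]
      have : 1 - 3 / (16 * (k : ℝ)) + 3 / (16 * (k : ℝ)) = 1 := by ring
      rw [this, Real.rpow_one]
    have h14 : (2 * C₂ / ε + 1) * (Real.log x) ^ 2 * (x : ℝ) ^ (1 - 3 / (16 * (k : ℝ))) ≤ x := by
      calc _ ≤ (x : ℝ) ^ (3 / (16 * (k : ℝ))) * (x : ℝ) ^ (1 - 3 / (16 * (k : ℝ))) :=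
            mul_le_mul_of_nonneg_right hx1 (by positivity)
        _ = x := by rw [mul_comm, ← h13]
    have hw : 0 < (x : ℝ) ^ (1 - 3 / (16 * (k : ℝ))) := by positivity
    have h15 : ε / 2 * x ≤ C₂ * (x : ℝ) ^ (1 - 3 / (16 * (k : ℝ))) * (Real.log x) ^ 2 := by
      have h16 : ε / 2 * ((x : ℝ) / (Real.log x) ^ 2) * (Real.log x) ^ 2 = ε / 2 * x := by
        field_simp
      rw [← h16]
      exact mul_le_mul_of_nonneg_right h12 (by positivity)
    have h16 : ε / 2 * ((2 * C₂ / ε + 1) * (Real.log x) ^ 2 * (x : ℝ) ^ (1 - 3 / (16 * (k : ℝ)))) =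
        C₂ * (x : ℝ) ^ (1 - 3 / (16 * (k : ℝ))) * (Real.log x) ^ 2 +
        ε / 2 * ((Real.log x) ^ 2 * (x : ℝ) ^ (1 - 3 / (16 * (k : ℝ)))) := by
      field_simp
    have h17 : 0 < ε / 2 * ((Real.log x) ^ 2 * (x : ℝ) ^ (1 - 3 / (16 * (k : ℝ)))) := by positivity
    have h18 := mul_le_mul_of_nonneg_left h14 (show 0 ≤ ε / 2 by positivity)
    linarith

end Pool.Agent.N430.LK
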